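import Pool.Agent.N90.SX.Bound
import Pool.Agent.N90.UB.Rel

/-!
# Small relations between the conjugates of CM types
-/

set_option autoImplicit false
set_option linter.unusedSectionVars false

namespace Pool.Agent.N90.SX

open NumberField Module Equiv Pool.Agent.H204R3.CM Pool.Agent.W546.GHC Pool.Agent.H977R3.CM
  Pool.Agent.N90.HG Pool.Agent.N90.UB

noncomputable section

variable {ι : Type*} [Fintype ι] {E : ι → Type*} [∀ i, Field (E i)]
  [∀ i, NumberField (E i)] [∀ i, IsCMField (E i)]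
  {L : Type*} [Field L] [NumberField L]
  {Φ : ∀ i, Set (E i →+* ℂ)} (hΦ : ∀ i, IsCMType (Φ i)) (j : L →+* ℂ)

include hΦ in
/-- **Short relations.** If there is a nonzero relation between the conjugates of the CM types, there
is a nonzero relation with coefficients bounded by `(2 g) ^ e`. -/
theorem short_rel [IsGalois ℚ L] (h : ∀ i, ∀ ψ : E i →+* ℂ, ∃ φ : E i →+* L, j.comp φ = ψ)
    {g e : ℕ} (hg : ∑ i, finrank ℚ (E i) = 2 * g)
    (he : Fintype.card ι * g * (Nat.log 2 g + 5) ≤ e ^ 2 ∨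
      2 * g ^ 2 * (Nat.log 2 g + 5) ≤ e ^ 3) (c : ∀ i, (E i →+* L) → ℤ) (hc : IsRel Φ j c)
    (hne : ∃ i φ, c i φ ≠ 0) :
    ∃ c' : ∀ i, (E i →+* L) → ℤ, IsRel Φ j c' ∧ (∃ i φ, c' i φ ≠ 0) ∧
      ∀ i φ, |c' i φ| ≤ ((2 * g) ^ e : ℕ) := by
  classical
  rw [isRel_iff_sum] at hc
  obtain ⟨hodd, hsum⟩ := hc
  let ε : (Σ i, (E i →+* L)) → ℤ := sgn Φ j 1
  have hε : ∀ (σ : L ≃ₐ[ℚ] L) y, ε (σ • y) = sgn Φ j σ y := fun σ y => rfl
  have hx : ∀ i, Nonempty (E i →+* L) := fun i => by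
    obtain ⟨φ, _⟩ := h i (Classical.choice (inferInstance : Nonempty (E i →+* ℂ)))
    exact ⟨φ⟩
  have hΛ : Lam (L ≃ₐ[ℚ] L) (inv (E := E) (L := L)) ε ≠ ⊥ := by
    intro h0
    have h1 : (fun y : Σ i, (E i →+* L) => (c y.1 y.2 : ℚ)) ∈
        Lam (L ≃ₐ[ℚ] L) (inv (E := E) (L := L)) ε := by
      refine ⟨fun y => ?_, fun σ => ?_⟩
      · change (c (inv y).1 (inv y).2 : ℚ) = -(c y.1 y.2 : ℚ)
        rw [hodd]
        push_cast
        rfl
      · simp only [hε]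
        exact_mod_cast hsum σ
    rw [h0, Submodule.mem_bot] at h1
    obtain ⟨i, φ, hφ⟩ := hne
    apply hφ
    have h2 := congrFun h1 ⟨i, φ⟩
    simpa using h2
  obtain ⟨n, hn0, hn, hnR, hnle⟩ := small_relation (G := L ≃ₐ[ℚ] L)
    (X := Σ i, (E i →+* L)) (inv := inv) (ε := ε) inv_inv' inv_ne (fun σ y => rfl)
    (fun y => by
      rcases sgn_eq j 1 y with h1 | h1
      · change |sgn Φ j 1 y| ≤ 1
        rw [h1]
        norm_num
      · change |sgn Φ j 1 y| ≤ 1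
        rw [h1]
        norm_num) (g := g) (by rw [card_emb j h, hg]) (I := ι)
    (fun i => ⟨i, Classical.choice (hx i)⟩) (fun y => by
      obtain ⟨i, φ⟩ := y
      obtain ⟨σ, hσ⟩ := MulAction.exists_smul_eq (L ≃ₐ[ℚ] L) (Classical.choice (hx i)) φ
      exact ⟨i, σ, by
        change (⟨i, σ • Classical.choice (hx i)⟩ : Σ i, (E i →+* L)) = ⟨i, φ⟩
        rw [hσ]⟩) hΛ he
  refine ⟨fun i φ => n ⟨i, φ⟩, ?_, ?_, fun i φ => hnle ⟨i, φ⟩⟩
  · rw [isRel_iff_sum]
    exact ⟨fun y => hn y, fun σ => hnR σ⟩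
  · by_contra hcon
    push Not at hcon
    exact hn0 (funext fun y => hcon y.1 y.2)

include hΦ in
/-- **The bound.** If, for an abelian variety with the factors `A i` of multiplicity at least
`(2 g) ^ e`, all Hodge classes are generated in degree two, the same holds for all products. -/
theorem generated_of_generated' {J J' : Type*} [Fintype J] [Fintype J'] (t : J → ι) (t' : J' → ι)
    (hsep : Separated Φ) [IsGalois ℚ L]
    (h : ∀ i, ∀ ψ : E i →+* ℂ, ∃ φ : E i →+* L, j.comp φ = ψ) {g e N : ℕ}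
    (hg : ∑ i, finrank ℚ (E i) = 2 * g) (he : Fintype.card ι * g * (Nat.log 2 g + 5) ≤ e ^ 2 ∨
      2 * g ^ 2 * (Nat.log 2 g + 5) ≤ e ^ 3) (hN : (2 * g) ^ e ≤ N)
    (ht : ∀ i, N ≤ mult t i) (hgen : HodgeGenerated (per Φ t)) : HodgeGenerated (per Φ t') := by
  refine hodge_of_bounded hΦ t' j h fun c hc _ => ?_
  by_contra hcon
  push Not at hcon
  obtain ⟨i, φ, hφ⟩ := hcon
  obtain ⟨c', hc', hne, hle⟩ := short_rel hΦ j h hg he c hc ⟨i, φ, hφ⟩
  refine not_generated_of_rel hΦ t j hsep h c' hc' (fun i φ => ?_) hne hgen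
  refine (hle i φ).trans ?_
  exact_mod_cast hN.trans (ht i)

end

end Pool.Agent.N90.SX
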