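import Pool.Agent.N90.SX.Main

/-!
# Small relations: the bound
-/

set_option autoImplicit false
set_option linter.unusedSectionVars false

namespace Pool.Agent.N90.SX

open Module Finset

variable {G X : Type*} [Group G] [Fintype G] [Fintype X] [DecidableEq X] [MulAction G X]

/-- rank and nullity on a subspace -/
theorem finrank_map_add {A B : Type*} [AddCommGroup A] [Module ℚ A] [FiniteDimensional ℚ A]
    [AddCommGroup B] [Module ℚ B] (R : A →ₗ[ℚ] B) (W : Submodule ℚ A) :
    finrank ℚ (W.map R) + finrank ℚ ↥(W ⊓ LinearMap.ker R) = finrank ℚ W := by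
  have h1 := LinearMap.finrank_range_add_finrank_ker (R.domRestrict W)
  have h2 : LinearMap.range (R.domRestrict W) = W.map R := LinearMap.range_domRestrict W R
  have h3 : (LinearMap.ker (R.domRestrict W)).map W.subtype = W ⊓ LinearMap.ker R := by
    ext v
    constructor
    · rintro ⟨u, hu, rfl⟩
      exact ⟨u.2, hu⟩
    · rintro ⟨hv, hv'⟩
      exact ⟨⟨v, hv⟩, hv', rfl⟩
  rw [h2] at h1
  rw [← h3, ← h1]
  congr 1
  exact (LinearEquiv.finrank_eq (Submodule.equivMapOfInjective W.subtype W.injective_subtype _)).symm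

/-- **The first bound**: large representations. -/
theorem case_large {inv : X → X} {ε : X → ℤ} (hinv : ∀ x, inv (inv x) = x)
    (hne : ∀ x, inv x ≠ x) (hε : ∀ x, |ε x| ≤ 1) {g : ℕ} (hcard : Fintype.card X = 2 * g)
    (V : Submodule ℚ (X → ℚ)) (hV : V ≤ Lam G inv ε) (hκ : 0 < finrank ℚ V) {e : ℕ}
    (he : g ≤ e * finrank ℚ V) :
    ∃ n : X → ℤ, n ≠ 0 ∧ (∀ x, n (inv x) = -n x) ∧ (∀ h : G, ∑ x, n x * ε (h • x) = 0) ∧
      ∀ x, |n x| ≤ ((2 * g) ^ e : ℕ) := by
  let w : X → X → ℤ := fun x y => (Pi.single x (1 : ℤ) : X → ℤ) y - (Pi.single (inv x) (1 : ℤ) : X → ℤ) y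
  let W : Submodule ℚ (X → ℚ) := Submodule.span ℚ (Set.range fun x y => (w x y : ℚ))
  have hwcast : ∀ x, (fun y => (w x y : ℚ)) =
      Pi.single x (1 : ℚ) - Pi.single (inv x) (1 : ℚ) := by
    intro x
    funext y
    simp only [w, Pi.sub_apply, Pi.single_apply]
    push_cast
    rfl
  have hsingle : ∀ x y : X, (Pi.single x (1 : ℚ) : X → ℚ) (inv y) =
      (Pi.single (inv x) (1 : ℚ) : X → ℚ) y := by
    intro x y
    by_cases h : inv y = x
    · rw [h, Pi.single_eq_same, ← h, hinv, Pi.single_eq_same]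
    · rw [Pi.single_eq_of_ne h, Pi.single_eq_of_ne]
      intro h1
      apply h
      rw [h1, hinv]
  have hWodd : ∀ f ∈ W, ∀ x, f (inv x) = -f x := by
    intro f hf
    induction hf using Submodule.span_induction with
    | mem f hf =>
      obtain ⟨x, rfl⟩ := hf
      intro y
      have h1 := congrFun (hwcast x) (inv y)
      have h2 := congrFun (hwcast x) y
      rw [Pi.sub_apply, hsingle, hsingle, hinv] at h1
      rw [Pi.sub_apply] at h2
      change (w x (inv y) : ℚ) = -(w x y : ℚ)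
      rw [h2, h1]
      ring
    | zero => intro x; simp
    | add a c _ _ ha hc =>
      intro x
      rw [Pi.add_apply, Pi.add_apply, ha, hc]
      ring
    | smul c a _ ha =>
      intro x
      rw [Pi.smul_apply, Pi.smul_apply, ha, smul_neg]
  have hVW : V ≤ W := by
    intro u hu
    have huodd := (hV hu).1
    have h2 : ∑ x, u x • (Pi.single x (1 : ℚ) : X → ℚ) = u := (pi_eq_sum_univ' u).symm
    have h3 : ∑ x, u x • (Pi.single (inv x) (1 : ℚ) : X → ℚ) = -u := by
      have h4 : -u = ∑ x, -(u x • (Pi.single x (1 : ℚ) : X → ℚ)) := by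
        rw [sum_neg_distrib, h2]
      rw [h4]
      refine Fintype.sum_equiv (⟨inv, inv, hinv, hinv⟩ : X ≃ X) _ _ fun x => ?_
      change _ = -(u (inv x) • (Pi.single (inv x) (1 : ℚ) : X → ℚ))
      rw [huodd, neg_smul, neg_neg]
    have h1 : u = (1 / 2 : ℚ) • ∑ x, u x • (fun y => (w x y : ℚ)) := by
      simp only [hwcast, smul_sub, sum_sub_distrib, h2, h3]
      funext y
      simp only [Pi.smul_apply, Pi.sub_apply, Pi.neg_apply, smul_eq_mul]
      ring
    rw [h1]
    exact Submodule.smul_mem _ _ (Submodule.sum_mem _ fun x _ =>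
      Submodule.smul_mem _ _ (Submodule.subset_span ⟨x, rfl⟩))
  have hq := finrank_odd_le hinv hne hcard W hWodd
  have hVK : V ≤ W ⊓ LinearMap.ker (Rw G ε) := le_inf hVW fun v hv => by
    rw [LinearMap.mem_ker]
    funext h
    exact (hV hv).2 h
  have hd := Submodule.finrank_mono hVK
  have he0 : 0 < e := by
    rcases Nat.eq_zero_or_pos e with h | h
    · subst h
      have h1 := Submodule.finrank_mono hVW
      omega
    · exact h
  obtain ⟨n, hn0, hnW, hnR, hnle⟩ := rel_of_span (fun (h : G) x => ε (h • x)) w (B := 1) (C := 2)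
    (by norm_num) (fun x y => by
      simp only [w, Pi.single_apply]
      by_cases h1 : y = x
      · have h2 : y ≠ inv x := fun h3 => hne x (by rw [← h3, h1])
        rw [if_pos h1, if_neg h2]
        norm_num
      · rw [if_neg h1]
        split_ifs <;> norm_num) (fun x h => by
      have h1 : ∑ y, w x y * ε (h • y) = ε (h • x) - ε (h • inv x) := by
        simp only [w, sub_mul, sum_sub_distrib, Pi.single_apply, ite_mul, one_mul, zero_mul]
        simp
      rw [h1]
      have h2 := abs_sub (ε (h • x)) (ε (h • inv x))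
      have h3 := hε (h • x)
      have h4 := hε (h • inv x)
      push_cast
      linarith) W (LinearMap.ker (Rw G ε)) rfl (fun f => by
      rw [LinearMap.mem_ker]
      constructor
      · intro h1 h
        exact congrFun h1 h
      · intro h1
        funext h
        exact h1 h) (d := finrank ℚ ↥(W ⊓ LinearMap.ker (Rw G ε))) (ν := e - 1) rfl
    (by omega) (by
      rw [Nat.sub_add_cancel he0]
      exact hq.trans (he.trans (Nat.mul_le_mul_left _ hd)))
  refine ⟨n, hn0, fun x => ?_, hnR, fun x => ?_⟩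
  · have h1 := hWodd _ hnW x
    exact_mod_cast h1
  · refine (hnle x).trans ?_
    have h1 : finrank ℚ W * 1 * (finrank ℚ W * 2) ^ (e - 1) ≤ (2 * g) ^ e := by
      calc finrank ℚ W * 1 * (finrank ℚ W * 2) ^ (e - 1)
          ≤ (2 * g) * (2 * g) ^ (e - 1) :=
            Nat.mul_le_mul (by omega) (Nat.pow_le_pow_left (by omega) _)
        _ = (2 * g) ^ e := by
          rw [← pow_succ', Nat.sub_add_cancel he0]
    exact_mod_cast h1

/-- **The second bound**: small representations. -/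
theorem case_small {inv : X → X} {ε : X → ℤ} (hinv : ∀ x, inv (inv x) = x)
    (hne : ∀ x, inv x ≠ x) (hG : ∀ (g : G) x, g • inv x = inv (g • x)) (hε : ∀ x, |ε x| ≤ 1)
    {g : ℕ} (hcard : Fintype.card X = 2 * g) (V : Submodule ℚ (X → ℚ))
    (ρ : Representation ℚ G V) (hV : V ≤ Lam G inv ε)
    (hρ : ∀ (g : G) (v : V) y, (ρ g v : X → ℚ) y = (v : X → ℚ) (g⁻¹ • y)) (hirr : Irr ρ)
    (hκ : 0 < finrank ℚ V) (x₀ : X) (hU : 0 < finrank ℚ (U ρ x₀)) {L ν e : ℕ}
    (hL : finrank ℚ V < 2 ^ L)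
    (hν : finrank ℚ (LinearMap.range (T (X := X) ρ)) ≤ (ν + 1) * finrank ℚ V ∨
      finrank ℚ V ≤ ν)
    (he : (finrank ℚ V * L / finrank ℚ (U ρ x₀) + 4) * (ν + 1) ≤ e) :
    ∃ n : X → ℤ, n ≠ 0 ∧ (∀ x, n (inv x) = -n x) ∧ (∀ h : G, ∑ x, n x * ε (h • x) = 0) ∧
      ∀ x, |n x| ≤ ((2 * g) ^ e : ℕ) := by
  obtain ⟨κ, hκdef⟩ : ∃ κ, κ = finrank ℚ V := ⟨_, rfl⟩
  obtain ⟨m, hm⟩ : ∃ m, m = finrank ℚ (U ρ x₀) := ⟨_, rfl⟩
  rw [← hκdef] at hκ hL hν he
  rw [← hm] at hU he
  have hbm : κ * L ≤ (κ * L / m + 1) * m := by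
    have h1 := Nat.lt_mul_div_succ (κ * L) hU
    rw [mul_comm m] at h1
    exact h1.le
  obtain ⟨b, hb⟩ : ∃ b, b = κ * L / m + 1 := ⟨_, rfl⟩
  rw [← hb] at hbm
  have he' : (b + 3) * (ν + 1) ≤ e := by
    rw [hb]
    exact he
  obtain ⟨s, hs⟩ := exists_base' ρ hirr (U ρ x₀) (b := b) (L := L) (by rw [← hκdef]; exact hL)
    (by rw [← hκdef, ← hm]; exact hbm) (by rw [← hm]; exact hU)
  obtain ⟨w, W, hW, hw, hVW, hWT, hWodd⟩ := exists_family hinv hG V ρ hV hρ hirr
    (by rw [← hκdef]; exact hκ) s x₀ hs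
  rw [← hκdef] at hw
  have hq := finrank_odd_le hinv hne hcard W hWodd
  have hVK : V ≤ W ⊓ LinearMap.ker (Rw G ε) := le_inf hVW fun v hv => by
    rw [LinearMap.mem_ker]
    funext h
    exact (hV hv).2 h
  have hd := Submodule.finrank_mono hVK
  rw [← hκdef] at hd
  have hκg : κ ≤ g := by
    have h1 := Submodule.finrank_mono hVW
    rw [← hκdef] at h1
    exact h1.trans hq
  have hνq : finrank ℚ W ≤ (ν + 1) * finrank ℚ ↥(W ⊓ LinearMap.ker (Rw G ε)) := by
    rcases hν with h | h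
    · exact (Submodule.finrank_mono hWT).trans (h.trans (Nat.mul_le_mul_left _ hd))
    · have h1 := finrank_map_add (Rw G ε) W
      have h2 := finrank_rows_le ρ ε W hWT
      rw [← hκdef] at h2
      have h3 : κ * κ ≤ ν * finrank ℚ ↥(W ⊓ LinearMap.ker (Rw G ε)) := Nat.mul_le_mul h hd
      have h4 : (ν + 1) * finrank ℚ ↥(W ⊓ LinearMap.ker (Rw G ε)) =
        ν * finrank ℚ ↥(W ⊓ LinearMap.ker (Rw G ε)) + finrank ℚ ↥(W ⊓ LinearMap.ker (Rw G ε)) := by
        ring
      omega
  have hP : 0 < Fintype.card X := by omega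
  have hB : 0 < 2 * (κ * Fintype.card X ^ b) := by positivity
  obtain ⟨n, hn0, hnW, hnR, hnle⟩ := rel_of_span (fun (h : G) x => ε (h • x)) w
    (B := 2 * (κ * Fintype.card X ^ b)) (C := Fintype.card X * (2 * (κ * Fintype.card X ^ b)))
    (Nat.mul_pos hP hB) hw (fun x h => by
      refine (abs_sum_le_sum_abs _ _).trans ((sum_le_sum
        (g := fun _ => ((2 * (κ * Fintype.card X ^ b) : ℕ) : ℤ)) fun y _ => ?_).trans ?_)
      · rw [abs_mul]
        calc |w x y| * |ε (h • y)| ≤ (2 * (κ * Fintype.card X ^ b) : ℕ) * 1 :=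
              mul_le_mul (hw _ _) (hε _) (abs_nonneg _) (by positivity)
          _ = _ := mul_one _
      · rw [sum_const, nsmul_eq_mul, card_univ]
        push_cast
        exact le_rfl) W (LinearMap.ker (Rw G ε)) hW (fun f => by
      rw [LinearMap.mem_ker]
      constructor
      · intro h1 h
        exact congrFun h1 h
      · intro h1
        funext h
        exact h1 h) (d := finrank ℚ ↥(W ⊓ LinearMap.ker (Rw G ε))) (ν := ν) rfl
    (by omega) hνq
  refine ⟨n, hn0, fun x => ?_, hnR, fun x => ?_⟩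
  · have h1 := hWodd _ hnW x
    exact_mod_cast h1
  · refine (hnle x).trans ?_
    have hPb : 2 * (κ * Fintype.card X ^ b) ≤ Fintype.card X ^ (b + 1) := by
      rw [pow_succ', ← mul_assoc]
      refine Nat.mul_le_mul_right _ ?_
      omega
    have hqP : finrank ℚ W ≤ Fintype.card X := by omega
    have h1 : finrank ℚ W * (2 * (κ * Fintype.card X ^ b)) *
        (finrank ℚ W * (Fintype.card X * (2 * (κ * Fintype.card X ^ b)))) ^ ν ≤ (2 * g) ^ e := by
      calc finrank ℚ W * (2 * (κ * Fintype.card X ^ b)) *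
            (finrank ℚ W * (Fintype.card X * (2 * (κ * Fintype.card X ^ b)))) ^ ν
          ≤ Fintype.card X * Fintype.card X ^ (b + 1) *
            (Fintype.card X * (Fintype.card X * Fintype.card X ^ (b + 1))) ^ ν := by
            gcongr
        _ ≤ Fintype.card X ^ (b + 3) * (Fintype.card X ^ (b + 3)) ^ ν := by
            have h2 : Fintype.card X * Fintype.card X ^ (b + 1) = Fintype.card X ^ (b + 2) := by
              rw [← pow_succ']
            have h3 : Fintype.card X * Fintype.card X ^ (b + 2) = Fintype.card X ^ (b + 3) := by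
              rw [← pow_succ']
            rw [h2, h3]
            exact Nat.mul_le_mul_right _ (Nat.pow_le_pow_right hP (by omega))
        _ = Fintype.card X ^ ((b + 3) * (ν + 1)) := by
            rw [← pow_mul, ← pow_add]
            congr 1
            ring
        _ ≤ Fintype.card X ^ e := Nat.pow_le_pow_right hP he'
        _ = (2 * g) ^ e := by rw [hcard]
    exact_mod_cast h1

/-- **Small relations.** -/
theorem small_relation {inv : X → X} {ε : X → ℤ} (hinv : ∀ x, inv (inv x) = x)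
    (hne : ∀ x, inv x ≠ x) (hG : ∀ (g : G) x, g • inv x = inv (g • x)) (hε : ∀ x, |ε x| ≤ 1)
    {g : ℕ} (hcard : Fintype.card X = 2 * g) {I : Type*} [Fintype I] (x : I → X)
    (hx : ∀ y, ∃ i, ∃ g : G, g • x i = y) (hΛ : Lam G inv ε ≠ ⊥) {e : ℕ}
    (he : Fintype.card I * g * (Nat.log 2 g + 5) ≤ e ^ 2 ∨
      2 * g ^ 2 * (Nat.log 2 g + 5) ≤ e ^ 3) :
    ∃ n : X → ℤ, n ≠ 0 ∧ (∀ x, n (inv x) = -n x) ∧ (∀ h : G, ∑ x, n x * ε (h • x) = 0) ∧
      ∀ x, |n x| ≤ ((2 * g) ^ e : ℕ) := by
  classical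
  obtain ⟨V, ρ, hV, hV0, hρ, hirr⟩ := exists_irr hG hΛ
  have hκ : 0 < finrank ℚ V := by
    rw [Nat.pos_iff_ne_zero]
    intro h
    exact hV0 (Submodule.finrank_eq_zero.1 h)
  by_cases hlarge : g ≤ e * finrank ℚ V
  · exact case_large hinv hne hε hcard V hV hκ hlarge
  push Not at hlarge
  have hκg : finrank ℚ V ≤ g := finrank_odd_le hinv hne hcard V fun f hf => (hV hf).1
  have hVT : V ≤ LinearMap.range (T (X := X) ρ) := by
    intro v hv
    obtain ⟨u, hu⟩ := range_le ρ hirr hκ V.subtype hρ ⟨v, hv⟩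
    exact ⟨_, hu⟩
  have hdim := Submodule.finrank_mono hVT
  have hT := finrank_T_le ρ x hx
  have hI : Nonempty I := by
    by_contra hI
    rw [not_nonempty_iff] at hI
    rw [Fintype.sum_empty, mul_zero] at hT
    omega
  obtain ⟨i₀, -, hi₀⟩ := exists_max_image univ (fun i => finrank ℚ (U ρ (x i))) univ_nonempty
  have hsum : ∑ i, finrank ℚ (U ρ (x i)) ≤ Fintype.card I * finrank ℚ (U ρ (x i₀)) := by
    refine (sum_le_sum fun i hi => hi₀ i hi).trans ?_
    rw [sum_const, smul_eq_mul, card_univ]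
  have hU : 0 < finrank ℚ (U ρ (x i₀)) := by
    rw [Nat.pos_iff_ne_zero]
    intro h
    rw [h, mul_zero] at hsum
    have h1 : ∑ i, finrank ℚ (U ρ (x i)) = 0 := by omega
    rw [h1, mul_zero] at hT
    omega
  have hUle : finrank ℚ (U ρ (x i₀)) ≤ finrank ℚ V := Submodule.finrank_le _
  have hL : finrank ℚ V < 2 ^ (Nat.log 2 g + 1) :=
    lt_of_le_of_lt hκg (Nat.lt_pow_succ_log_self (by norm_num) g)
  obtain ⟨κ, hκdef⟩ : ∃ κ, κ = finrank ℚ V := ⟨_, rfl⟩
  obtain ⟨m, hm⟩ : ∃ m, m = finrank ℚ (U ρ (x i₀)) := ⟨_, rfl⟩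
  obtain ⟨L, hLdef⟩ : ∃ L, L = Nat.log 2 g := ⟨_, rfl⟩
  have hcs := fun ν => case_small hinv hne hG hε hcard V ρ hV hρ hirr hκ (x i₀) hU hL (e := e)
    (ν := ν)
  rw [← hκdef, ← hm, ← hLdef] at hcs
  rw [← hκdef] at hlarge hκ hκg hT hdim hUle
  rw [← hm] at hU hUle hsum
  rw [← hLdef] at he
  have hg : 0 < g := by omega
  rcases he with he | he
  · -- the bound with the number of the orbits
    have ht : 0 < Fintype.card I := Fintype.card_pos
    obtain ⟨t, htdef⟩ : ∃ t, t = Fintype.card I := ⟨_, rfl⟩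
    rw [← htdef] at he ht hsum
    have htm : 0 < t * m := Nat.mul_pos ht hU
    refine hcs (t * m - 1) (Or.inl ?_) ?_
    · rw [Nat.sub_add_cancel htm]
      refine hT.trans ?_
      rw [mul_comm]
      exact Nat.mul_le_mul_right _ hsum
    · rw [Nat.sub_add_cancel htm]
      have h1 : κ * (L + 1) / m * m ≤ κ * (L + 1) := Nat.div_mul_le_self _ _
      have h2 : (κ * (L + 1) / m + 4) * (t * m) ≤ t * (κ * (L + 5)) := by
        calc (κ * (L + 1) / m + 4) * (t * m) = t * (κ * (L + 1) / m * m + 4 * m) := by ring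
          _ ≤ t * (κ * (L + 1) + 4 * κ) := by gcongr
          _ = _ := by ring
      refine h2.trans ?_
      by_contra h3
      push Not at h3
      have h4 : e * (e * κ) * e ≤ 0 ∨ True := Or.inr trivial
      have h5 : e ^ 2 < t * g * (L + 5) := by
        rcases Nat.eq_zero_or_pos e with h6 | h6
        · subst h6
          positivity
        · calc e ^ 2 = e * e := sq e
            _ < e * (t * (κ * (L + 5))) := Nat.mul_lt_mul_of_pos_left h3 h6
            _ = t * (e * κ) * (L + 5) := by ring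
            _ ≤ t * g * (L + 5) := by gcongr
      omega
  · refine hcs κ (Or.inr le_rfl) ?_
    have h1 : κ * (L + 1) / m ≤ κ * (L + 1) := Nat.div_le_self _ _
    have h2 : (κ * (L + 1) / m + 4) * (κ + 1) ≤ 2 * κ ^ 2 * (L + 5) := by
      calc (κ * (L + 1) / m + 4) * (κ + 1) ≤ (κ * (L + 1) + 4 * κ) * (κ + κ) := by
            gcongr
            · omega
            · omega
        _ = _ := by ring
    refine h2.trans ?_
    by_contra h3
    push Not at h3
    have h5 : e ^ 3 < 2 * g ^ 2 * (L + 5) := by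
      rcases Nat.eq_zero_or_pos e with h6 | h6
      · subst h6
        positivity
      · calc e ^ 3 = e ^ 2 * e := by ring
          _ < e ^ 2 * (2 * κ ^ 2 * (L + 5)) := Nat.mul_lt_mul_of_pos_left h3 (by positivity)
          _ = 2 * (e * κ) ^ 2 * (L + 5) := by ring
          _ ≤ 2 * g ^ 2 * (L + 5) := by gcongr
    omega

end Pool.Agent.N90.SX
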