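import Pool.Agent.N90.SX.Field
import Pool.Agent.N90.TD.Main

/-!
# Ordinary abelian varieties over finite fields: the upper bound
-/

set_option autoImplicit false
set_option linter.unusedSectionVars false

namespace Pool.Agent.N90.SX

open NumberField Module Equiv Pool.Agent.H204R3.CM Pool.Agent.H977R3.CM Pool.Agent.W546.GHC
  Pool.Agent.N90.HG Pool.Agent.N90.TD
open scoped TensorProduct

noncomputable section

variable {p a : ℕ} [Fact p.Prime] {ι : Type} [Fintype ι] {E : ι → Type} [∀ i, Field (E i)]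
  [∀ i, NumberField (E i)] [∀ i, IsCMField (E i)] {π : ∀ i, E i}
  (hπ : IsOrdinaryFamily p a E π)

include hπ in
/-- **The upper bound.** -/
theorem upper' [Nonempty ι] {g e N : ℕ} (hg : ∑ i, finrank ℚ (E i) = 2 * g)
    (he : Fintype.card ι * g * (Nat.log 2 g + 5) ≤ e ^ 2 ∨
      2 * g ^ 2 * (Nat.log 2 g + 5) ≤ e ^ 3) (hN : (2 * g) ^ e ≤ N)
    (K : Type) [Field K] [CharZero K] {J : Type} [Fintype J] (t : J → ι)
    (ht : ∀ i, ∃ e : Fin N → J, Function.Injective e ∧ ∀ k, t (e k) = i)
    (h : TateGenerated (frob K π t) (p ^ a)) (K' : Type) [Field K'] [CharZero K']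
    {J' : Type} [Fintype J'] (t' : J' → ι) : TateGenerated (frob K' π t') (p ^ a) := by
  classical
  obtain ⟨ν⟩ := Pool.Agent.R401.Iso.exists_iso p
  apply generated_up
  change TateGenerated (F0 π t') (p ^ a)
  have h1 : TateGenerated (F0 π t) (p ^ a) := generated_down _ _ h
  rw [generated_iff hπ ν] at h1 ⊢
  obtain ⟨L, _, _, _, j, hL⟩ := exists_closure hπ ν
  refine generated_of_generated' (isCMType_typ hπ ν) j t t' (separated_typ hπ ν j hL) hL hg he hN
    (fun i => ?_) h1
  obtain ⟨e', he', hte⟩ := ht i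
  unfold mult
  calc N = (Finset.univ : Finset (Fin N)).card := (Finset.card_fin N).symm
    _ = (Finset.univ.image e').card := (Finset.card_image_of_injective _ he').symm
    _ ≤ _ := Finset.card_le_card fun b hb => by
        obtain ⟨k, _, rfl⟩ := Finset.mem_image.1 hb
        exact Finset.mem_filter.2 ⟨Finset.mem_univ _, hte k⟩

end

end Pool.Agent.N90.SX
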