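import Mathlib.LinearAlgebra.Trace
import Mathlib.LinearAlgebra.Charpoly.ToMatrix
import Mathlib.LinearAlgebra.Matrix.Charpoly.Eigs
import Mathlib.LinearAlgebra.Eigenspace.Charpoly
import Mathlib.RingTheory.IntegralClosure.IntegrallyClosed
import Mathlib.Analysis.Complex.Polynomial.Basic
import Mathlib.RingTheory.Int.Basic
import Mathlib.RingTheory.Polynomial.RationalRoot

/-!
# The trace of an operator of finite order
-/

set_option autoImplicit false

namespace Pool.Agent.N90.SX

open Module Polynomial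

/-- The trace of an operator of finite order over `ℚ` is an integer, bounded by the dimension. -/
theorem trace_int {V : Type*} [AddCommGroup V] [Module ℚ V] [FiniteDimensional ℚ V]
    (f : V →ₗ[ℚ] V) {k : ℕ} (hk : 0 < k) (hf : f ^ k = 1) :
    ∃ z : ℤ, LinearMap.trace ℚ V f = z ∧ |z| ≤ finrank ℚ V := by
  classical
  let b := finBasis ℚ V
  let A : Matrix (Fin (finrank ℚ V)) (Fin (finrank ℚ V)) ℚ := LinearMap.toMatrix b b f
  have hA : A ^ k = 1 := by
    have h1 : (LinearMap.toMatrixAlgEquiv b f) ^ k = 1 := by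
      rw [← map_pow, hf, map_one]
    exact h1
  let B : Matrix (Fin (finrank ℚ V)) (Fin (finrank ℚ V)) ℂ := A.map (algebraMap ℚ ℂ)
  have hB : B ^ k = 1 := by
    have h1 : ((algebraMap ℚ ℂ).mapMatrix A) ^ k = 1 := by
      rw [← map_pow, hA, map_one]
    exact h1
  have hroots : ∀ μ ∈ B.charpoly.roots, μ ^ k = 1 := by
    intro μ hμ
    have h1 : (Matrix.toLin' B).charpoly.IsRoot μ := by
      rw [Matrix.charpoly_toLin']
      exact (mem_roots'.1 hμ).2
    have h2 : Module.End.HasEigenvalue (Matrix.toLin' B) μ :=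
      (Module.End.hasEigenvalue_iff_isRoot_charpoly _ _).2 h1
    obtain ⟨v, hv⟩ := h2.exists_hasEigenvector
    have h3 := hv.pow_apply k
    have h4 : (Matrix.toLin' B) ^ k = 1 := by
      rw [← Matrix.toLin'_pow, hB]
      exact Matrix.toLin'_one
    rw [h4] at h3
    have h5 : (1 : ℂ) • v = μ ^ k • v := by
      rw [one_smul]
      exact h3
    exact (smul_left_injective ℂ hv.2 h5).symm
  have htr : ((LinearMap.trace ℚ V f : ℚ) : ℂ) = B.charpoly.roots.sum := by
    rw [← Matrix.trace_eq_sum_roots_charpoly, LinearMap.trace_eq_matrix_trace ℚ b f]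
    simp [B, A, Matrix.trace, Matrix.map_apply]
  have hint : IsIntegral ℤ (LinearMap.trace ℚ V f) := by
    have h1 : IsIntegral ℤ ((algebraMap ℚ ℂ) (LinearMap.trace ℚ V f)) := by
      rw [eq_ratCast, htr]
      refine IsIntegral.multiset_sum fun μ hμ => ?_
      have h2 : IsIntegral ℤ (μ ^ k) := by
        rw [hroots μ hμ]
        exact isIntegral_one
      exact h2.of_pow hk
    exact (isIntegral_algebraMap_iff (algebraMap ℚ ℂ).injective).1 h1
  obtain ⟨z, hz⟩ := IsIntegrallyClosed.isIntegral_iff.1 hint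
  refine ⟨z, hz.symm, ?_⟩
  have h1 : ‖((LinearMap.trace ℚ V f : ℚ) : ℂ)‖ ≤ finrank ℚ V := by
    rw [htr]
    have h2 : ‖B.charpoly.roots.sum‖ ≤ (B.charpoly.roots.map fun μ => ‖μ‖).sum :=
      norm_multiset_sum_le _
    refine h2.trans ?_
    have h3 : ∀ x ∈ B.charpoly.roots.map (fun μ => ‖μ‖), x ≤ 1 := by
      intro x hx
      obtain ⟨μ, hμ, rfl⟩ := Multiset.mem_map.1 hx
      have h4 : ‖μ‖ ^ k = 1 := by rw [← norm_pow, hroots μ hμ, norm_one]
      exact le_of_eq ((pow_eq_one_iff_of_nonneg (norm_nonneg _) hk.ne').1 h4)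
    have h4 := Multiset.sum_le_card_nsmul _ _ h3
    refine h4.trans ?_
    rw [Multiset.card_map, nsmul_eq_mul, mul_one]
    have h5 := B.charpoly.card_roots'
    rw [Matrix.charpoly_natDegree_eq_dim, Fintype.card_fin] at h5
    exact_mod_cast h5
  have h2 : ((LinearMap.trace ℚ V f : ℚ) : ℂ) = (z : ℂ) := by
    rw [← hz]
    simp
  rw [h2, Complex.norm_intCast] at h1
  exact_mod_cast h1

end Pool.Agent.N90.SX
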