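import Pool.Agent.N90.SX.Semi
import Pool.Agent.N90.SX.Trace
import Mathlib.GroupTheory.GroupAction.Defs
import Mathlib.GroupTheory.Coset.Card

/-!
# The isotypic operator on a permutation representation

For an irreducible representation `V` of a finite group `G` with the character `χ` and a finite
`G`-set `X` the operator `T = ∑ χ(g) g` on the functions on `X` has the image of every equivariant
map `V → (X → ℚ)` in its range, its range has dimension at most
`dim V * ∑ dim V ^ (G_x)` (sum over the orbits), and `T δ_x` is `|G_x ∩ ker|` times an integral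
vector, whose entries are small if `V` is a sum of few translates of a space of invariants.
-/

set_option autoImplicit false
set_option linter.unusedSectionVars false

namespace Pool.Agent.N90.SX

open Module Finset

variable {G X V : Type*} [Group G] [Fintype G] [Fintype X] [DecidableEq X] [MulAction G X]
  [AddCommGroup V] [Module ℚ V] [FiniteDimensional ℚ V] (ρ : Representation ℚ G V)

/-- the character -/
noncomputable def ch (g : G) : ℚ := LinearMap.trace ℚ V (ρ g)

theorem ch_int (g : G) : ∃ z : ℤ, ch ρ g = z ∧ |z| ≤ finrank ℚ V :=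
  trace_int (ρ g) (orderOf_pos g) (by rw [← map_pow, pow_orderOf_eq_one, map_one])

theorem ch_comm (g h : G) : ch ρ (g * h) = ch ρ (h * g) := by
  unfold ch
  rw [map_mul ρ g h, map_mul ρ h g, LinearMap.trace_mul_comm]

theorem ch_one : ch ρ 1 = finrank ℚ V := by
  unfold ch
  rw [map_one, LinearMap.trace_one]

/-- the operator on the representation -/
noncomputable def TV : V →ₗ[ℚ] V := ∑ g, ch ρ g • ρ g

theorem TV_comm (h : G) (v : V) : ρ h (TV ρ v) = TV ρ (ρ h v) := by
  unfold TV
  simp only [LinearMap.sum_apply, LinearMap.smul_apply, map_sum, map_smul]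
  have h1 : ∀ g, ρ h (ρ g v) = ρ (h * g) v := fun g => by rw [map_mul]; rfl
  have h2 : ∀ g, ρ g (ρ h v) = ρ (g * h) v := fun g => by rw [map_mul]; rfl
  simp only [h1, h2]
  rw [← Equiv.sum_comp (Equiv.mulLeft h⁻¹)]
  rw [← Equiv.sum_comp (Equiv.mulRight h⁻¹) (fun g => ch ρ g • ρ (g * h) v)]
  refine sum_congr rfl fun g _ => ?_
  rw [Equiv.coe_mulLeft, Equiv.coe_mulRight, ch_comm, mul_inv_cancel_left, inv_mul_cancel_right]

theorem TV_surjective (hirr : Irr ρ) (hV : 0 < finrank ℚ V) : LinearMap.range (TV ρ) = ⊤ := by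
  rcases hirr (LinearMap.range (TV ρ)) (fun g => by
    rintro _ ⟨_, ⟨v, rfl⟩, rfl⟩
    exact ⟨ρ g v, (TV_comm ρ g v).symm⟩) with h | h
  · exfalso
    rw [LinearMap.range_eq_bot] at h
    have h1 : LinearMap.trace ℚ V (TV ρ) = ∑ g, ch ρ g * ch ρ g := by
      unfold TV
      rw [map_sum]
      refine sum_congr rfl fun g _ => ?_
      rw [map_smul, smul_eq_mul]
      rfl
    rw [h, map_zero] at h1
    have h2 : (0 : ℚ) < ∑ g, ch ρ g * ch ρ g := by
      refine sum_pos' (fun g _ => mul_self_nonneg _) ⟨1, mem_univ _, ?_⟩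
      rw [ch_one]
      have h3 : (0 : ℚ) < finrank ℚ V := by exact_mod_cast hV
      positivity
    linarith
  · exact h

/-- the operator on the functions -/
noncomputable def T : (X → ℚ) →ₗ[ℚ] (X → ℚ) :=
  ∑ g, ch ρ g • LinearMap.funLeft ℚ ℚ fun y : X => g⁻¹ • y

theorem T_apply (f : X → ℚ) (y : X) : T ρ f y = ∑ g, ch ρ g * f (g⁻¹ • y) := by
  unfold T
  simp [LinearMap.funLeft_apply]

/-- the range of the operator contains the images of the representation -/
theorem range_le (hirr : Irr ρ) (hV : 0 < finrank ℚ V) (i : V →ₗ[ℚ] (X → ℚ))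
    (hi : ∀ g v y, i (ρ g v) y = i v (g⁻¹ • y)) (v : V) : ∃ u, T (X := X) ρ (i u) = i v := by
  have h1 : v ∈ LinearMap.range (TV ρ) := by
    rw [TV_surjective ρ hirr hV]
    trivial
  obtain ⟨u, rfl⟩ := h1
  refine ⟨u, ?_⟩
  funext y
  rw [T_apply]
  unfold TV
  simp only [LinearMap.sum_apply, LinearMap.smul_apply, map_sum, map_smul, Finset.sum_apply,
    Pi.smul_apply, smul_eq_mul]
  exact sum_congr rfl fun g _ => by rw [hi]

/-- the invariants of the stabilizer of a point -/
def U (x : X) : Submodule ℚ V where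
  carrier := {v | ∀ g : G, g • x = x → ρ g v = v}
  add_mem' := fun {a b} ha hb g hg => by rw [map_add, ha g hg, hb g hg]
  zero_mem' := fun g _ => map_zero _
  smul_mem' := fun c v hv g hg => by rw [map_smul, hv g hg]

theorem mem_U (x : X) (v : V) : v ∈ U ρ x ↔ ∀ g : G, g • x = x → ρ g v = v := Iff.rfl

/-- the sum over the stabilizer -/
noncomputable def Ex (x : X) : V →ₗ[ℚ] V := ∑ g : G with g • x = x, ρ g

theorem Ex_mem (x : X) (v : V) : Ex ρ x v ∈ U ρ x := by
  intro h hh
  unfold Ex
  rw [LinearMap.sum_apply, map_sum]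
  have h1 : ∀ g, ρ h (ρ g v) = ρ (h * g) v := fun g => by rw [map_mul]; rfl
  simp only [h1]
  refine sum_nbij' (fun g => h * g) (fun g => h⁻¹ * g) ?_ ?_ ?_ ?_ ?_
  · intro g hg
    simp only [mem_filter, mem_univ, true_and] at hg ⊢
    rw [mul_smul, hg, hh]
  · intro g hg
    simp only [mem_filter, mem_univ, true_and] at hg ⊢
    rw [mul_smul, hg, inv_smul_eq_iff, hh]
  · intro g _
    simp
  · intro g _
    simp
  · intro g _
    rfl

/-- the operator of a function on the group -/
noncomputable def A : (G → ℚ) →ₗ[ℚ] (V →ₗ[ℚ] V) where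
  toFun a := ∑ g, a g • ρ g⁻¹
  map_add' a b := by simp only [Pi.add_apply, add_smul, sum_add_distrib]
  map_smul' c a := by simp only [Pi.smul_apply, smul_assoc, smul_sum, RingHom.id_apply]

/-- the vector `T (a δ_x)` -/
noncomputable def D (x : X) : (G → ℚ) →ₗ[ℚ] (X → ℚ) where
  toFun a := T ρ (fun y => ∑ g, if g • x = y then a g else 0)
  map_add' a b := by
    rw [← map_add]
    congr 1
    funext y
    rw [Pi.add_apply, ← sum_add_distrib]
    refine sum_congr rfl fun g _ => ?_
    split_ifs <;> simp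
  map_smul' c a := by
    rw [RingHom.id_apply, ← map_smul]
    congr 1
    funext y
    rw [Pi.smul_apply, smul_eq_mul, mul_sum]
    refine sum_congr rfl fun g _ => ?_
    split_ifs <;> simp

theorem D_apply (x : X) (a : G → ℚ) (y : X) :
    D ρ x a y = ∑ s : G with s • x = y, LinearMap.trace ℚ V (ρ s * A ρ a) := by
  change T ρ (fun y => ∑ g, if g • x = y then a g else 0) y = _
  rw [T_apply]
  have h1 : ∀ s : G, LinearMap.trace ℚ V (ρ s * A ρ a) = ∑ g, a g * ch ρ (s * g⁻¹) := by
    intro s
    change LinearMap.trace ℚ V (ρ s * ∑ g, a g • ρ g⁻¹) = _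
    rw [mul_sum, map_sum]
    refine sum_congr rfl fun g _ => ?_
    rw [mul_smul_comm, map_smul, smul_eq_mul, ← map_mul]
    rfl
  simp only [h1]
  rw [sum_filter]
  simp only [mul_sum]
  rw [sum_comm]
  have h2 : ∀ g : G, ∑ k : G, ch ρ k * (if g • x = k⁻¹ • y then a g else 0) =
      ∑ s : G, if s • x = y then a g * ch ρ (s * g⁻¹) else 0 := by
    intro g
    rw [← Equiv.sum_comp (Equiv.mulRight g⁻¹)]
    refine sum_congr rfl fun s _ => ?_
    rw [Equiv.coe_mulRight]
    have h3 : g • x = (s * g⁻¹)⁻¹ • y ↔ s • x = y := by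
      rw [eq_inv_smul_iff, ← mul_smul, inv_mul_cancel_right]
    simp only [h3]
    split_ifs
    · ring
    · ring
  rw [sum_congr rfl fun g _ => h2 g, sum_comm]
  refine sum_congr rfl fun s _ => ?_
  split_ifs
  · rfl
  · simp

theorem D_ker (x : X) (a : G → ℚ) (ha : Ex ρ x ∘ₗ A ρ a = 0) : D ρ x a = 0 := by
  funext y
  rw [D_apply, ← map_sum, ← sum_mul]
  by_cases hy : ∃ s : G, s • x = y
  · obtain ⟨s₀, hs₀⟩ := hy
    have h1 : ∑ s : G with s • x = y, ρ s = ρ s₀ * Ex ρ x := by
      unfold Ex
      rw [mul_sum]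
      refine sum_nbij' (fun g => s₀⁻¹ * g) (fun g => s₀ * g) ?_ ?_ ?_ ?_ ?_
      · intro g hg
        simp only [mem_filter, mem_univ, true_and] at hg ⊢
        rw [mul_smul, hg, ← hs₀, inv_smul_smul]
      · intro g hg
        simp only [mem_filter, mem_univ, true_and] at hg ⊢
        rw [mul_smul, hg, hs₀]
      · intro g _
        simp
      · intro g _
        simp
      · intro g _
        rw [← map_mul, mul_inv_cancel_left]
    rw [h1, mul_assoc]
    have h2 : Ex ρ x * A ρ a = 0 := ha
    rw [h2, mul_zero, map_zero]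
    rfl
  · have h1 : (univ.filter fun s : G => s • x = y) = ∅ := by
      rw [filter_eq_empty_iff]
      intro s _ hs
      exact hy ⟨s, hs⟩
    rw [h1, sum_empty, zero_mul, map_zero]
    rfl

/-- the dimension of the part of the range coming from one orbit -/
theorem finrank_D_le (x : X) :
    finrank ℚ (LinearMap.range (D ρ x)) ≤ finrank ℚ V * finrank ℚ (U ρ x) := by
  let E' : V →ₗ[ℚ] U ρ x := (Ex ρ x).codRestrict (U ρ x) (Ex_mem ρ x)
  let F : (G → ℚ) →ₗ[ℚ] (V →ₗ[ℚ] U ρ x) := (LinearMap.llcomp ℚ V V (U ρ x) E') ∘ₗ A ρ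
  have hker : LinearMap.ker F ≤ LinearMap.ker (D ρ x) := by
    intro a ha
    rw [LinearMap.mem_ker] at ha ⊢
    apply D_ker
    ext v
    have h1 := LinearMap.congr_fun ha v
    have h2 : ((E' (A ρ a v) : U ρ x) : V) = 0 := by
      have h3 : E' (A ρ a v) = 0 := h1
      rw [h3]
      rfl
    exact h2
  have h1 := LinearMap.finrank_range_add_finrank_ker F
  have h2 := LinearMap.finrank_range_add_finrank_ker (D ρ x)
  have h3 := Submodule.finrank_mono hker
  have h4 : finrank ℚ (LinearMap.range F) ≤ finrank ℚ (V →ₗ[ℚ] U ρ x) := Submodule.finrank_le _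
  rw [Module.finrank_linearMap] at h4
  omega

theorem finrank_sup_le {I W : Type*} [AddCommGroup W] [Module ℚ W] [FiniteDimensional ℚ W]
    (s : Finset I) (S : I → Submodule ℚ W) :
    finrank ℚ ↥(s.sup S) ≤ ∑ i ∈ s, finrank ℚ (S i) := by
  classical
  induction s using Finset.induction_on with
  | empty => simp
  | insert a s ha ih =>
    rw [sup_insert, sum_insert ha]
    exact (Submodule.finrank_add_le_finrank_add_finrank _ _).trans (Nat.add_le_add_left ih _)

/-- the dimension of the range -/
theorem finrank_T_le {I : Type*} [Fintype I] (x : I → X) (hx : ∀ y, ∃ i, ∃ g : G, g • x i = y) :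
    finrank ℚ (LinearMap.range (T (X := X) ρ)) ≤
      finrank ℚ V * ∑ i, finrank ℚ (U ρ (x i)) := by
  have h1 : LinearMap.range (T (X := X) ρ) ≤ univ.sup fun i => LinearMap.range (D ρ (x i)) := by
    rintro _ ⟨f, rfl⟩
    have h2 : f = ∑ y, f y • (Pi.single y (1 : ℚ) : X → ℚ) := by
      rw [← pi_eq_sum_univ' f]
    rw [h2, map_sum]
    refine Submodule.sum_mem _ fun y _ => ?_
    rw [map_smul]
    refine Submodule.smul_mem _ _ ?_
    obtain ⟨i, g, hg⟩ := hx y
    have h3 : LinearMap.range (D ρ (x i)) ≤ univ.sup fun i => LinearMap.range (D ρ (x i)) :=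
      Finset.le_sup (f := fun i => LinearMap.range (D ρ (x i))) (mem_univ i)
    apply h3
    classical
    refine ⟨Pi.single g 1, ?_⟩
    change T ρ _ = _
    congr 1
    funext z
    rw [sum_eq_single g]
    · rw [hg, Pi.single_eq_same]
      by_cases hz : y = z
      · rw [if_pos hz, hz, Pi.single_eq_same]
      · rw [if_neg hz, Pi.single_eq_of_ne (Ne.symm hz)]
    · intro k _ hk
      rw [Pi.single_eq_of_ne hk]
      simp
    · intro h
      exact absurd (mem_univ _) h
  refine (Submodule.finrank_mono h1).trans ((finrank_sup_le _ _).trans ?_)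
  rw [mul_sum]
  exact sum_le_sum fun i _ => finrank_D_le ρ (x i)

theorem T_single (x y : X) :
    T ρ (Pi.single x (1 : ℚ)) y = ∑ g : G with g • x = y, ch ρ g := by
  rw [T_apply, sum_filter]
  refine sum_congr rfl fun g _ => ?_
  by_cases h : g • x = y
  · rw [if_pos h, ← h, inv_smul_smul, Pi.single_eq_same, mul_one]
  · rw [if_neg h, Pi.single_eq_of_ne, mul_zero]
    intro h1
    apply h
    rw [← h1, smul_inv_smul]

/-- the part of the stabilizer acting trivially on the representation -/
def Kx (x : X) : Subgroup G := MulAction.stabilizer G x ⊓ MonoidHom.ker ρ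

theorem mem_Kx (x : X) (g : G) : g ∈ Kx ρ x ↔ g • x = x ∧ ρ g = 1 := by
  unfold Kx
  rw [Subgroup.mem_inf, MulAction.mem_stabilizer_iff, MonoidHom.mem_ker]

theorem dvd_sum' (x y : X) (z : G → ℤ) (hz : ∀ g, ∀ k ∈ Kx ρ x, z (g * k) = z g) :
    (Nat.card (Kx ρ x) : ℤ) ∣ ∑ g : G with g • x = y, z g := by
  classical
  rw [← sum_fiberwise_of_maps_to (s := univ.filter fun g : G => g • x = y)
    (t := (univ.filter fun g : G => g • x = y).image (fun g : G => (g : G ⧸ Kx ρ x)))
    (g := fun g : G => (g : G ⧸ Kx ρ x)) (fun g hg => mem_image_of_mem _ hg)]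
  refine dvd_sum fun q hq => ?_
  obtain ⟨g₀, hg₀, rfl⟩ := mem_image.1 hq
  rw [mem_filter] at hg₀
  have h1 : ((univ.filter fun g : G => g • x = y).filter
      fun g : G => (g : G ⧸ Kx ρ x) = (g₀ : G ⧸ Kx ρ x)) =
      (univ : Finset (Kx ρ x)).image (fun k : Kx ρ x => g₀ * (k : G)) := by
    ext g
    simp only [mem_filter, mem_univ, true_and, mem_image]
    constructor
    · rintro ⟨_, h2⟩
      have h3 : g₀⁻¹ * g ∈ Kx ρ x := QuotientGroup.eq.1 h2.symm
      exact ⟨⟨_, h3⟩, by simp⟩
    · rintro ⟨k, rfl⟩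
      have h3 := (mem_Kx ρ x k).1 k.2
      refine ⟨by rw [mul_smul, h3.1, hg₀.2], ?_⟩
      rw [eq_comm, QuotientGroup.eq, inv_mul_cancel_left]
      exact k.2
  rw [h1, sum_image (fun k _ k' _ h => Subtype.ext (mul_left_cancel h))]
  rw [sum_congr rfl (fun (k : Kx ρ x) _ => hz g₀ (k : G) k.2), sum_const, card_univ, nsmul_eq_mul,
    Nat.card_eq_fintype_card]
  exact dvd_mul_right _ _

/-- **Integrality.** `T δ_x` is a multiple of an integral vector. -/
theorem exists_w : ∃ w : X → X → ℤ, ∀ x y : X,
    T ρ (Pi.single x (1 : ℚ)) y = Nat.card (Kx ρ x) * w x y ∧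
      |w x y| * Nat.card (Kx ρ x) ≤ finrank ℚ V * (univ.filter fun g : G => g • x = y).card := by
  choose z hz hzle using ch_int ρ
  have h1 : ∀ x y : X, ∃ c : ℤ, ∑ g : G with g • x = y, z g = Nat.card (Kx ρ x) * c := by
    intro x y
    refine dvd_sum' ρ x y z fun g k hk => ?_
    have h2 : ch ρ (g * k) = ch ρ g := by
      unfold ch
      rw [map_mul ρ g k, ((mem_Kx ρ x k).1 hk).2, mul_one]
    rw [hz, hz] at h2
    exact_mod_cast h2
  choose c hc using h1
  refine ⟨c, fun x y => ⟨?_, ?_⟩⟩
  · rw [T_single, sum_congr rfl fun g _ => hz g, ← Int.cast_sum, hc]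
    push_cast
    rfl
  · have h2 : |∑ g : G with g • x = y, z g| ≤
        finrank ℚ V * (univ.filter fun g : G => g • x = y).card := by
      refine (abs_sum_le_sum_abs _ _).trans ((sum_le_sum fun g _ => hzle g).trans ?_)
      rw [sum_const, nsmul_eq_mul, mul_comm]
    rw [hc, abs_mul, Nat.abs_cast, mul_comm] at h2
    exact h2

/-- **Few translates bound the stabilizers.** -/
theorem card_le_of_base {b : ℕ} (s : Fin b → G) (x₀ : X) (hs : ⨆ i, (U ρ x₀).map (ρ (s i)) = ⊤)
    (x y : X) :
    (univ.filter fun g : G => g • x = y).card ≤ Nat.card (Kx ρ x) * Fintype.card X ^ b := by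
  classical
  have h1 := card_le_mul_card_image_of_maps_to (s := univ.filter fun g : G => g • x = y)
    (t := (univ : Finset (Fin b → X))) (f := fun g i => g • s i • x₀)
    (fun g _ => mem_univ _) (Nat.card (Kx ρ x)) (fun f _ => by
      rcases Finset.eq_empty_or_nonempty ((univ.filter fun g : G => g • x = y).filter
        fun g => (fun i => g • s i • x₀) = f) with h | ⟨g₀, hg₀⟩
      · rw [h]
        simp
      · rw [mem_filter, mem_filter] at hg₀
        have h2 : ((univ.filter fun g : G => g • x = y).filter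
            fun g => (fun i => g • s i • x₀) = f) ⊆
            (univ : Finset (Kx ρ x)).image (fun k : Kx ρ x => g₀ * (k : G)) := by
          intro g hg
          rw [mem_filter, mem_filter] at hg
          refine mem_image.2 ⟨⟨g₀⁻¹ * g, ?_⟩, mem_univ _, mul_inv_cancel_left _ _⟩
          rw [mem_Kx]
          refine ⟨?_, ?_⟩
          · rw [mul_smul, hg.1.2, inv_smul_eq_iff, hg₀.1.2]
          · have h3 : ∀ i, (g₀⁻¹ * g) • s i • x₀ = s i • x₀ := by
              intro i
              have h4 := congrFun hg.2 i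
              have h5 := congrFun hg₀.2 i
              rw [mul_smul, inv_smul_eq_iff]
              exact h4.trans h5.symm
            have h4 : ∀ i, (U ρ x₀).map (ρ (s i)) ≤
                LinearMap.ker (ρ (g₀⁻¹ * g) - LinearMap.id) := by
              rintro i _ ⟨u, hu, rfl⟩
              rw [LinearMap.mem_ker, LinearMap.sub_apply, LinearMap.id_apply, sub_eq_zero]
              have h5 : ((s i)⁻¹ * (g₀⁻¹ * g) * s i) • x₀ = x₀ := by
                rw [mul_smul, mul_smul, h3, inv_smul_smul]
              have h6 := hu _ h5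
              have h7 : ρ (s i) (ρ ((s i)⁻¹ * (g₀⁻¹ * g) * s i) u) = ρ (s i) u := by rw [h6]
              rw [← Module.End.mul_apply, ← map_mul, ← mul_assoc, mul_inv_cancel_left,
                map_mul] at h7
              exact h7
            have h5 : LinearMap.ker (ρ (g₀⁻¹ * g) - LinearMap.id) = ⊤ := by
              rw [eq_top_iff, ← hs]
              exact iSup_le h4
            rw [LinearMap.ker_eq_top, sub_eq_zero] at h5
            exact h5
        refine (card_le_card h2).trans (card_image_le.trans ?_)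
        rw [card_univ, Nat.card_eq_fintype_card])
  refine h1.trans (le_of_eq ?_)
  rw [card_univ, Fintype.card_fun, Fintype.card_fin]

end Pool.Agent.N90.SX
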