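import Pool.Agent.N90.SX.Rel

/-!
# Small relations: the bound
-/

set_option autoImplicit false
set_option linter.unusedSectionVars false

namespace Pool.Agent.N90.SX

open Module Finset

variable {G X : Type*} [Group G] [Fintype G] [Fintype X] [DecidableEq X] [MulAction G X]

/-- **An integral family spanning the odd isotypic part.** -/
theorem exists_family {inv : X → X} {ε : X → ℤ} (hinv : ∀ x, inv (inv x) = x)
    (hG : ∀ (g : G) x, g • inv x = inv (g • x)) (V : Submodule ℚ (X → ℚ))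
    (ρ : Representation ℚ G V) (hV : V ≤ Lam G inv ε)
    (hρ : ∀ (g : G) (v : V) y, (ρ g v : X → ℚ) y = (v : X → ℚ) (g⁻¹ • y)) (hirr : Irr ρ)
    (hκ : 0 < finrank ℚ V) {b : ℕ} (s : Fin b → G) (x₀ : X)
    (hs : ⨆ i, (U ρ x₀).map (ρ (s i)) = ⊤) :
    ∃ (w : X → X → ℤ) (W : Submodule ℚ (X → ℚ)),
      W = Submodule.span ℚ (Set.range fun x y => (w x y : ℚ)) ∧
      (∀ x y, |w x y| ≤ (2 * (finrank ℚ V * Fintype.card X ^ b) : ℕ)) ∧ V ≤ W ∧
      W ≤ LinearMap.range (T (X := X) ρ) ∧ (∀ f ∈ W, ∀ x, f (inv x) = -f x) := by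
  obtain ⟨w₀, hw₀⟩ := exists_w (X := X) ρ
  have hK : ∀ x : X, Kx ρ (inv x) = Kx ρ x := by
    intro x
    ext g
    rw [mem_Kx, mem_Kx, hG]
    have h1 : inv (g • x) = inv x ↔ g • x = x :=
      ⟨fun h => by rw [← hinv (g • x), h, hinv], fun h => by rw [h]⟩
    rw [h1]
  have hkpos : ∀ x : X, (0 : ℚ) < Nat.card (Kx ρ x) := fun x => by
    exact_mod_cast Nat.card_pos
  let w : X → X → ℤ := fun x y => w₀ x y - w₀ (inv x) y
  let δ : X → (X → ℚ) := fun x => Pi.single x 1 - Pi.single (inv x) 1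
  have hδ : ∀ x, T ρ (δ x) = fun y => (Nat.card (Kx ρ x) : ℚ) * w x y := by
    intro x
    funext y
    rw [map_sub, Pi.sub_apply, (hw₀ x y).1, (hw₀ (inv x) y).1, hK]
    simp only [w]
    push_cast
    ring
  have hsingle : ∀ x y : X, (Pi.single x (1 : ℚ) : X → ℚ) (inv y) =
      (Pi.single (inv x) (1 : ℚ) : X → ℚ) y := by
    intro x y
    by_cases h : inv y = x
    · rw [h, Pi.single_eq_same, ← h, hinv, Pi.single_eq_same]
    · rw [Pi.single_eq_of_ne h, Pi.single_eq_of_ne]
      intro h1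
      apply h
      rw [h1, hinv]
  have hδodd : ∀ x y, δ x (inv y) = -δ x y := by
    intro x y
    simp only [δ, Pi.sub_apply]
    rw [hsingle, hsingle, hinv]
    ring
  have hTodd : ∀ f : X → ℚ, (∀ y, f (inv y) = -f y) → ∀ y, T ρ f (inv y) = -T ρ f y := by
    intro f hf y
    rw [T_apply, T_apply, ← sum_neg_distrib]
    refine sum_congr rfl fun g _ => ?_
    rw [hG, hf]
    ring
  have hwT : ∀ x, (fun y => (w x y : ℚ)) = (Nat.card (Kx ρ x) : ℚ)⁻¹ • T ρ (δ x) := by
    intro x
    rw [hδ]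
    funext y
    rw [Pi.smul_apply, smul_eq_mul, inv_mul_cancel_left₀ (hkpos x).ne']
  refine ⟨w, _, rfl, ?_, ?_, ?_, ?_⟩
  · have h1 : ∀ x y, |w₀ x y| ≤ (finrank ℚ V * Fintype.card X ^ b : ℕ) := by
      intro x y
      have h1 := (hw₀ x y).2
      have h2 := card_le_of_base ρ s x₀ hs x y
      have h3 : (0 : ℤ) < Nat.card (Kx ρ x) := by exact_mod_cast Nat.card_pos
      have h4 : |w₀ x y| * Nat.card (Kx ρ x) ≤
          (finrank ℚ V * Fintype.card X ^ b : ℕ) * Nat.card (Kx ρ x) := by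
        refine h1.trans ?_
        have h5 : finrank ℚ V * (univ.filter fun g : G => g • x = y).card ≤
            (finrank ℚ V * Fintype.card X ^ b) * Nat.card (Kx ρ x) := by
          calc finrank ℚ V * (univ.filter fun g : G => g • x = y).card
              ≤ finrank ℚ V * (Nat.card (Kx ρ x) * Fintype.card X ^ b) :=
                Nat.mul_le_mul_left _ h2
            _ = _ := by ring
        exact_mod_cast h5
      exact le_of_mul_le_mul_right h4 h3
    intro x y
    have h2 := h1 x y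
    have h3 := h1 (inv x) y
    have h4 := abs_sub (w₀ x y) (w₀ (inv x) y)
    push_cast at h2 h3 ⊢
    change |w₀ x y - w₀ (inv x) y| ≤ _
    linarith
  · intro v hv
    obtain ⟨u, hu⟩ := range_le ρ hirr hκ V.subtype hρ ⟨v, hv⟩
    have hu' : T ρ (u : X → ℚ) = v := hu
    have huodd := (hV u.2).1
    have h1 : (u : X → ℚ) = (1 / 2 : ℚ) • ∑ x, (u : X → ℚ) x • δ x := by
      have h2 : ∑ x, (u : X → ℚ) x • (Pi.single x (1 : ℚ) : X → ℚ) = u :=
        (pi_eq_sum_univ' (u : X → ℚ)).symm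
      have h3 : ∑ x, (u : X → ℚ) x • (Pi.single (inv x) (1 : ℚ) : X → ℚ) = -u := by
        rw [← h2, ← sum_neg_distrib]
        refine Fintype.sum_equiv (⟨inv, inv, hinv, hinv⟩ : X ≃ X) _ _ fun x => ?_
        rw [h2]
        change _ = -((u : X → ℚ) (inv x) • (Pi.single (inv x) (1 : ℚ) : X → ℚ))
        rw [huodd, neg_smul, neg_neg]
      simp only [δ, smul_sub, sum_sub_distrib, h2, h3]
      funext y
      simp only [Pi.smul_apply, Pi.sub_apply, Pi.neg_apply, smul_eq_mul]
      ring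
    rw [← hu', h1, map_smul, map_sum]
    refine Submodule.smul_mem _ _ (Submodule.sum_mem _ fun x _ => ?_)
    rw [map_smul]
    refine Submodule.smul_mem _ _ ?_
    have h2 : T ρ (δ x) = (Nat.card (Kx ρ x) : ℚ) • fun y => (w x y : ℚ) := by
      rw [hwT, smul_smul, mul_inv_cancel₀ (hkpos x).ne', one_smul]
    rw [h2]
    exact Submodule.smul_mem _ _ (Submodule.subset_span ⟨x, rfl⟩)
  · rw [Submodule.span_le]
    rintro _ ⟨x, rfl⟩
    change (fun y => (w x y : ℚ)) ∈ _
    rw [hwT]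
    exact Submodule.smul_mem _ _ ⟨_, rfl⟩
  · intro f hf
    induction hf using Submodule.span_induction with
    | mem f hf =>
      obtain ⟨x, rfl⟩ := hf
      intro y
      have h1 := congrFun (hwT x) (inv y)
      have h2 := congrFun (hwT x) y
      rw [Pi.smul_apply, hTodd _ (hδodd x), smul_neg] at h1
      rw [Pi.smul_apply] at h2
      change (w x (inv y) : ℚ) = -(w x y : ℚ)
      rw [h2]
      exact h1
    | zero => intro x; simp
    | add a c _ _ ha hc =>
      intro x
      rw [Pi.add_apply, Pi.add_apply, ha, hc]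
      ring
    | smul c a _ ha =>
      intro x
      rw [Pi.smul_apply, Pi.smul_apply, ha, smul_neg]

end Pool.Agent.N90.SX
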