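import Mathlib.NumberTheory.SiegelsLemma
import Mathlib.LinearAlgebra.Matrix.Rank
import Mathlib.LinearAlgebra.Dimension.Constructions

/-!
# Small integral vectors in the kernel of a matrix, inside a subspace
-/

set_option autoImplicit false

namespace Pool.Agent.N90.SX

open Module Finset Matrix

attribute [local instance] Matrix.normedAddCommGroup

/-- Siegel's lemma with an integral exponent. -/
theorem siegel_int {r q : ℕ} (A : Matrix (Fin r) (Fin q) ℤ) {C : ℕ} (hC : 1 ≤ C)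
    (hA : ∀ i j, |A i j| ≤ C) {ν : ℕ} (hν : r ≤ ν * (q - r)) (hq : r < q) :
    ∃ s : Fin q → ℤ, s ≠ 0 ∧ A *ᵥ s = 0 ∧ ∀ j, |s j| ≤ ((q * C) ^ ν : ℕ) := by
  have hqC : 1 ≤ q * C := Nat.one_le_iff_ne_zero.2 (by
    have h1 : q ≠ 0 := by omega
    have h2 : C ≠ 0 := by omega
    exact mul_ne_zero h1 h2)
  rcases Nat.eq_zero_or_pos r with hr | hr
  · subst hr
    refine ⟨Pi.single ⟨0, hq⟩ 1, ?_, ?_, ?_⟩
    · intro h
      have h1 := congrFun h ⟨0, hq⟩
      simp at h1
    · funext i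
      exact i.elim0
    · intro j
      have h1 : |(Pi.single (⟨0, hq⟩ : Fin q) (1 : ℤ) : Fin q → ℤ) j| ≤ 1 := by
        rw [Pi.single_apply]
        split_ifs <;> simp
      refine h1.trans ?_
      exact_mod_cast Nat.one_le_pow _ _ hqC
  obtain ⟨s, hs0, hs, hle⟩ := Int.Matrix.exists_ne_zero_int_vec_norm_le A
    (by simpa using hq) (by simpa using hr)
  refine ⟨s, hs0, hs, fun j => ?_⟩
  rw [Fintype.card_fin, Fintype.card_fin] at hle
  have h1 : max 1 ‖A‖ ≤ (C : ℝ) := by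
    refine max_le (by exact_mod_cast hC) ?_
    rw [Matrix.norm_le_iff (by positivity)]
    intro i j
    rw [Int.norm_eq_abs]
    exact_mod_cast hA i j
  have h2 : (1 : ℝ) ≤ q * C := by exact_mod_cast hqC
  have h3 : (0 : ℝ) < (q : ℝ) - r := by
    have : (r : ℝ) < q := by exact_mod_cast hq
    linarith
  have h4 : (r : ℝ) / (q - r) ≤ ν := by
    rw [div_le_iff₀ h3]
    have h5 : ((q - r : ℕ) : ℝ) = (q : ℝ) - r := by
      rw [Nat.cast_sub hq.le]
    rw [← h5]
    exact_mod_cast hν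
  have h5 : (q * max 1 ‖A‖ : ℝ) ^ ((r : ℝ) / (q - r)) ≤ (q * C : ℝ) ^ ν := by
    calc (q * max 1 ‖A‖ : ℝ) ^ ((r : ℝ) / (q - r)) ≤ (q * C : ℝ) ^ ((r : ℝ) / (q - r)) := by
          refine Real.rpow_le_rpow (by positivity) ?_ (by positivity)
          gcongr
      _ ≤ (q * C : ℝ) ^ (ν : ℝ) := Real.rpow_le_rpow_of_exponent_le h2 h4
      _ = (q * C : ℝ) ^ ν := Real.rpow_natCast _ _
  have h6 : ‖s j‖ ≤ ‖s‖ := norm_le_pi_norm s j
  rw [Int.norm_eq_abs] at h6
  have h7 : (|s j| : ℝ) ≤ ((q * C) ^ ν : ℕ) := by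
    push_cast
    linarith
  exact_mod_cast h7

/-- **Small relations in a subspace.** -/
theorem rel_of_span {X G J : Type*} [Fintype X] (M : G → X → ℤ) (w : J → X → ℤ) {B C : ℕ}
    (hC1 : 1 ≤ C) (hw : ∀ j x, |w j x| ≤ B) (hC : ∀ j h, |∑ x, w j x * M h x| ≤ C)
    (W K : Submodule ℚ (X → ℚ)) (hW : W = Submodule.span ℚ (Set.range fun j x => (w j x : ℚ)))
    (hK : ∀ f : X → ℚ, f ∈ K ↔ ∀ h, ∑ x, f x * M h x = 0) {d ν : ℕ} (hd : d = finrank ℚ ↥(W ⊓ K))
    (hd0 : 0 < d) (hν : finrank ℚ W ≤ (ν + 1) * d) :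
    ∃ n : X → ℤ, n ≠ 0 ∧ (fun x => (n x : ℚ)) ∈ W ∧ (∀ h, ∑ x, n x * M h x = 0) ∧
      ∀ x, |n x| ≤ (finrank ℚ W * B * (finrank ℚ W * C) ^ ν : ℕ) := by
  classical
  subst hW
  set S : Set (X → ℚ) := Set.range fun j x => (w j x : ℚ) with hS
  obtain ⟨q, f, hq, hf, hspan, hli⟩ : ∃ (q : ℕ) (f : Fin q → X → ℚ),
      finrank ℚ (Submodule.span ℚ S) = q ∧ (∀ i, f i ∈ S) ∧
        Submodule.span ℚ (Set.range f) = Submodule.span ℚ S ∧ LinearIndependent ℚ f := by
    obtain ⟨f, hf, hspan, hli⟩ := Submodule.exists_fun_fin_finrank_span_eq ℚ S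
    exact ⟨_, f, rfl, hf, hspan, hli⟩
  rw [hq] at hν ⊢
  have hf' : ∀ i, ∃ j, (fun x => (w j x : ℚ)) = f i := fun i => hf i
  choose jj hjj using hf'
  let A' : G → Fin q → ℤ := fun h i => ∑ x, w (jj i) x * M h x
  have hA'le : ∀ h i, |A' h i| ≤ C := fun h i => hC _ _
  let S2 : Set (Fin q → ℚ) := Set.range fun h i => (A' h i : ℚ)
  obtain ⟨r, f2, hr, hf2, hspan2, hli2⟩ : ∃ (r : ℕ) (f2 : Fin r → Fin q → ℚ),
      finrank ℚ (Submodule.span ℚ S2) = r ∧ (∀ i, f2 i ∈ S2) ∧
        Submodule.span ℚ (Set.range f2) = Submodule.span ℚ S2 ∧ LinearIndependent ℚ f2 := by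
    obtain ⟨f, hf, hspan, hli⟩ := Submodule.exists_fun_fin_finrank_span_eq ℚ S2
    exact ⟨_, f, rfl, hf, hspan, hli⟩
  have hf2' : ∀ k, ∃ h, (fun i => (A' h i : ℚ)) = f2 k := fun k => hf2 k
  choose hh hhh using hf2'
  let A'' : Matrix (Fin r) (Fin q) ℤ := fun k i => A' (hh k) i
  let AQ : Matrix (Fin r) (Fin q) ℚ := fun k => f2 k
  have hAQ : ∀ k i, AQ k i = (A'' k i : ℚ) := fun k i => (congrFun (hhh k) i).symm
  -- the rank
  let Φ : (Fin q → ℚ) →ₗ[ℚ] (X → ℚ) := Fintype.linearCombination ℚ f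
  have hΦ : ∀ s, Φ s = ∑ i, s i • f i := fun s => Fintype.linearCombination_apply ℚ f s
  have hΦinj : Function.Injective Φ := by
    rw [← LinearMap.ker_eq_bot]
    rw [LinearMap.ker_eq_bot']
    intro s hs
    rw [hΦ] at hs
    exact funext (Fintype.linearIndependent_iff.1 hli s hs)
  have hΦrange : LinearMap.range Φ = Submodule.span ℚ S := by
    rw [← hspan]
    exact Fintype.range_linearCombination ℚ f
  have hrow : ∀ s : Fin q → ℚ, ∀ h, ∑ x, Φ s x * M h x = ∑ i, (A' h i : ℚ) * s i := by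
    intro s h
    rw [hΦ]
    simp only [Finset.sum_apply, Pi.smul_apply, smul_eq_mul, sum_mul]
    rw [sum_comm]
    refine sum_congr rfl fun i _ => ?_
    have h1 : (A' h i : ℚ) = ∑ x, (w (jj i) x : ℚ) * M h x := by
      simp only [A']
      push_cast
      rfl
    rw [h1, sum_mul]
    refine sum_congr rfl fun x _ => ?_
    rw [← hjj i]
    ring
  have hker : K.comap Φ ≤ LinearMap.ker AQ.mulVecLin := by
    intro s hs
    rw [Submodule.mem_comap, hK] at hs
    rw [LinearMap.mem_ker]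
    funext k
    change ∑ i, AQ k i * s i = 0
    have h1 := hs (hh k)
    rw [hrow] at h1
    rw [← h1]
    exact sum_congr rfl fun i _ => by rw [hAQ]
  have hdim1 : finrank ℚ ↥(K.comap Φ) = d := by
    have h1 : (K.comap Φ).map Φ = Submodule.span ℚ S ⊓ K := by
      rw [Submodule.map_comap_eq, hΦrange]
    rw [hd, ← h1]
    exact (LinearEquiv.finrank_eq (Submodule.equivMapOfInjective Φ hΦinj (K.comap Φ)))
  have hrank : AQ.rank = r := by
    have h1 : LinearIndependent ℚ AQ.row := hli2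
    rw [h1.rank_matrix, Fintype.card_fin]
  have hrn : r + finrank ℚ (LinearMap.ker AQ.mulVecLin) = q := by
    have h1 := LinearMap.finrank_range_add_finrank_ker AQ.mulVecLin
    rw [Module.finrank_fin_fun] at h1
    have h2 : finrank ℚ (LinearMap.range AQ.mulVecLin) = r := hrank
    rw [h2] at h1
    exact h1
  have hle := Submodule.finrank_mono hker
  rw [hdim1] at hle
  have hrd : r + d ≤ q := by omega
  obtain ⟨s, hs0, hs, hsle⟩ := siegel_int A'' (C := C) hC1 (fun k i => hA'le _ _) (ν := ν) (by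
      have h1 : r + d ≤ (ν + 1) * d := hrd.trans hν
      have h2 : r ≤ ν * d := by
        have h3 : (ν + 1) * d = ν * d + d := by ring
        omega
      exact h2.trans (Nat.mul_le_mul_left _ (by omega))) (by omega)
  -- all rows vanish
  have hall : ∀ v ∈ Submodule.span ℚ S2, ∑ i, v i * (s i : ℚ) = 0 := by
    intro v hv
    rw [← hspan2] at hv
    induction hv using Submodule.span_induction with
    | mem v hv =>
      obtain ⟨k, rfl⟩ := hv
      have h1 : ∑ i, A'' k i * s i = 0 := congrFun hs k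
      have h2 : (∑ i, A'' k i * s i : ℚ) = 0 := by exact_mod_cast h1
      rw [← h2]
      exact sum_congr rfl fun i _ => by
        rw [← hAQ]
    | zero => simp
    | add v v' _ _ h1 h2 =>
      simp only [Pi.add_apply, add_mul, sum_add_distrib, h1, h2, add_zero]
    | smul a v _ h1 =>
      simp only [Pi.smul_apply, smul_eq_mul, mul_assoc]
      rw [← mul_sum, h1, mul_zero]
  let n : X → ℤ := fun x => ∑ i, s i * w (jj i) x
  have hn : (fun x => (n x : ℚ)) = Φ fun i => (s i : ℚ) := by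
    rw [hΦ]
    funext x
    simp only [n, Finset.sum_apply, Pi.smul_apply, smul_eq_mul]
    push_cast
    exact sum_congr rfl fun i _ => by rw [← hjj i]
  refine ⟨n, ?_, ?_, ?_, ?_⟩
  · intro h0
    apply hs0
    have h1 : Φ (fun i => (s i : ℚ)) = Φ 0 := by
      rw [← hn, h0, map_zero]
      funext x
      simp
    have h2 := hΦinj h1
    funext i
    have h3 := congrFun h2 i
    simpa using h3
  · rw [hn, ← hΦrange]
    exact ⟨_, rfl⟩
  · intro h
    have h1 := hrow (fun i => (s i : ℚ)) h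
    rw [← hn, hall _ (Submodule.subset_span ⟨h, rfl⟩)] at h1
    have h2 : ((∑ x, n x * M h x : ℤ) : ℚ) = 0 := by
      push_cast
      exact h1
    exact_mod_cast h2
  · intro x
    refine (abs_sum_le_sum_abs _ _).trans ?_
    refine (sum_le_sum (g := fun _ => (((q * C) ^ ν : ℕ) : ℤ) * B)
      fun i _ => ?_).trans ?_
    · rw [abs_mul]
      exact mul_le_mul (hsle i) (hw _ _) (abs_nonneg _) (by positivity)
    · rw [sum_const, nsmul_eq_mul, card_univ, Fintype.card_fin]
      push_cast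
      apply le_of_eq
      ring

end Pool.Agent.N90.SX
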