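import Pool.Agent.N90.SX.Iso
import Pool.Agent.N90.SX.Siegel
import Mathlib.Data.Nat.Log
import Mathlib.RingTheory.Artinian.Module
import Pool.Agent.TH170.GH.Count

/-!
# Small relations between the conjugates of a CM type

A finite group `G` acts on a finite set `X` with an involution `inv`, `e` is an odd function on `X`
with values `0`, `1`, `-1`. If there is a nonzero odd function orthogonal to all the conjugates of
`e`, there is an integral one with small values.
-/

set_option autoImplicit false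
set_option linter.unusedSectionVars false

namespace Pool.Agent.N90.SX

open Module Finset

variable {G X : Type*} [Group G] [Fintype G] [Fintype X] [DecidableEq X] [MulAction G X]

/-- the permutation representation -/
noncomputable def perm (G X : Type*) [Group G] [MulAction G X] : Representation ℚ G (X → ℚ) where
  toFun g := LinearMap.funLeft ℚ ℚ fun y : X => g⁻¹ • y
  map_one' := by
    ext f y
    simp [LinearMap.funLeft_apply]
  map_mul' g h := by
    refine LinearMap.ext fun f => funext fun y => ?_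
    simp [LinearMap.funLeft_apply, mul_smul]

theorem perm_apply (g : G) (f : X → ℚ) (y : X) : perm G X g f y = f (g⁻¹ • y) := rfl

/-- the odd functions orthogonal to the conjugates -/
def Lam (G : Type*) {X : Type*} [Group G] [Fintype X] [MulAction G X] (inv : X → X)
    (ε : X → ℤ) : Submodule ℚ (X → ℚ) where
  carrier := {f | (∀ x, f (inv x) = -f x) ∧ ∀ g : G, ∑ x, f x * ε (g • x) = 0}
  add_mem' := fun {a b} ha hb => ⟨fun x => by
    rw [Pi.add_apply, Pi.add_apply, ha.1, hb.1]
    ring, fun g => by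
    simp only [Pi.add_apply, add_mul, sum_add_distrib, ha.2, hb.2, add_zero]⟩
  zero_mem' := ⟨fun x => by simp, fun g => by simp⟩
  smul_mem' := fun c f hf => ⟨fun x => by
    rw [Pi.smul_apply, Pi.smul_apply, hf.1]
    simp, fun g => by
    simp only [Pi.smul_apply, smul_eq_mul, mul_assoc]
    rw [← mul_sum, hf.2, mul_zero]⟩

theorem perm_mem_Lam {inv : X → X} {ε : X → ℤ} (hG : ∀ (g : G) x, g • inv x = inv (g • x))
    (g : G) (f : X → ℚ) (hf : f ∈ Lam G inv ε) : perm G X g f ∈ Lam G inv ε := by
  refine ⟨fun x => ?_, fun h => ?_⟩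
  · rw [perm_apply, perm_apply, hG, hf.1]
  · have h1 := hf.2 (h * g)
    rw [← h1]
    refine (Fintype.sum_equiv (MulAction.toPerm g) _ _ fun x => ?_).symm
    rw [perm_apply, MulAction.toPerm_apply, inv_smul_smul, mul_smul]

/-- there is an irreducible invariant subspace -/
theorem exists_irr {inv : X → X} {ε : X → ℤ} (hG : ∀ (g : G) x, g • inv x = inv (g • x))
    (hne : Lam G inv ε ≠ ⊥) : ∃ (V : Submodule ℚ (X → ℚ)) (ρ : Representation ℚ G V),
      V ≤ Lam G inv ε ∧ V ≠ ⊥ ∧ (∀ (g : G) (v : V) y, (ρ g v : X → ℚ) y = (v : X → ℚ) (g⁻¹ • y)) ∧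
        Irr ρ := by
  obtain ⟨V, ⟨hV, hV0, hVinv⟩, hmin⟩ := wellFounded_lt.has_min
    {S : Submodule ℚ (X → ℚ) | S ≤ Lam G inv ε ∧ S ≠ ⊥ ∧ ∀ g : G, S.map (perm G X g) ≤ S}
    ⟨Lam G inv ε, le_rfl, hne, fun g => by
      rintro _ ⟨f, hf, rfl⟩
      exact perm_mem_Lam hG g f hf⟩
  have hVm : ∀ g : G, ∀ v ∈ V, perm G X g v ∈ V := fun g v hv => hVinv g ⟨v, hv, rfl⟩
  let ρ : Representation ℚ G V :=
    { toFun := fun g => (perm G X g).restrict (hVm g)
      map_one' := by
        ext v
        simp [LinearMap.restrict_apply]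
      map_mul' := fun g h => by
        refine LinearMap.ext fun v => Subtype.ext ?_
        simp [LinearMap.restrict_apply] }
  refine ⟨V, ρ, hV, hV0, fun g v y => rfl, ?_⟩
  intro S hS
  by_cases h0 : S = ⊥
  · exact Or.inl h0
  · refine Or.inr ?_
    by_contra htop
    refine hmin (S.map V.subtype) ⟨?_, ?_, ?_⟩ ?_
    · rintro _ ⟨v, _, rfl⟩
      exact hV v.2
    · intro h1
      apply h0
      rw [← Submodule.map_bot V.subtype] at h1
      exact Submodule.map_injective_of_injective V.injective_subtype h1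
    · rintro g _ ⟨_, ⟨v, hv, rfl⟩, rfl⟩
      exact ⟨ρ g v, hS g ⟨v, hv, rfl⟩, rfl⟩
    · refine lt_of_le_of_ne ?_ ?_
      · rintro _ ⟨v, _, rfl⟩
        exact v.2
      · intro h1
        apply htop
        have h2 : S.map V.subtype = (⊤ : Submodule ℚ V).map V.subtype := by
          rw [h1, Submodule.map_top, Submodule.range_subtype]
        exact Submodule.map_injective_of_injective V.injective_subtype h2

/-- the dimension of a space of odd functions -/
theorem finrank_odd_le {inv : X → X} (hinv : ∀ x, inv (inv x) = x) (hne : ∀ x, inv x ≠ x) {g : ℕ}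
    (hcard : Fintype.card X = 2 * g) (W : Submodule ℚ (X → ℚ))
    (hW : ∀ f ∈ W, ∀ x, f (inv x) = -f x) : finrank ℚ W ≤ g := by
  classical
  obtain ⟨H, hH, hHcard⟩ := Pool.Agent.TH170.GH.exists_half inv hinv hne hcard
  let r : W →ₗ[ℚ] (H → ℚ) := (LinearMap.funLeft ℚ ℚ (fun x : H => (x : X))) ∘ₗ W.subtype
  have hr : Function.Injective r := by
    rw [← LinearMap.ker_eq_bot, LinearMap.ker_eq_bot']
    intro f hf
    apply Subtype.ext
    have h1 : ∀ x ∈ H, (f : X → ℚ) x = 0 := fun x hx => congrFun hf ⟨x, hx⟩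
    funext x
    by_cases hx : x ∈ H
    · exact h1 x hx
    · have h2 := h1 _ ((hH x).1 hx)
      rw [hW f f.2] at h2
      simpa using h2
  have h1 := LinearMap.finrank_le_finrank_of_injective hr
  rw [Module.finrank_fintype_fun_eq_card, Fintype.card_coe, hHcard] at h1
  exact h1

/-- the rows -/
noncomputable def Rw (G : Type*) {X : Type*} [Group G] [Fintype X] [MulAction G X]
    (ε : X → ℤ) : (X → ℚ) →ₗ[ℚ] (G → ℚ) where
  toFun f := fun g => ∑ x, f x * ε (g • x)
  map_add' a b := by
    funext g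
    simp only [Pi.add_apply, add_mul, sum_add_distrib]
  map_smul' c a := by
    funext g
    simp only [Pi.smul_apply, smul_eq_mul, mul_assoc, mul_sum, RingHom.id_apply]

theorem Rw_apply (ε : X → ℤ) (f : X → ℚ) (g : G) : Rw G ε f g = ∑ x, f x * ε (g • x) := rfl

section
variable {V : Type*} [AddCommGroup V] [Module ℚ V] [FiniteDimensional ℚ V]
  (ρ : Representation ℚ G V)

/-- **The rank on the isotypic part.** -/
theorem finrank_rows_le (ε : X → ℤ) (W : Submodule ℚ (X → ℚ))
    (hW : W ≤ LinearMap.range (T (X := X) ρ)) :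
    finrank ℚ (W.map (Rw G ε)) ≤ finrank ℚ V * finrank ℚ V := by
  let P : (X → ℚ) →ₗ[ℚ] (V →ₗ[ℚ] V) :=
    { toFun := fun f => ∑ k : G, (Rw G ε f k) • ρ k
      map_add' := fun a b => by
        rw [map_add]
        simp only [Pi.add_apply, add_smul, sum_add_distrib]
      map_smul' := fun c a => by
        rw [map_smul]
        simp only [Pi.smul_apply, smul_assoc, smul_sum, RingHom.id_apply] }
  let Q : (V →ₗ[ℚ] V) →ₗ[ℚ] (G → ℚ) :=
    { toFun := fun B h => LinearMap.trace ℚ V (ρ h⁻¹ * B)
      map_add' := fun a b => by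
        funext h
        rw [mul_add, map_add]
        rfl
      map_smul' := fun c a => by
        funext h
        rw [mul_smul_comm, map_smul]
        rfl }
  have hPQ : Rw G ε ∘ₗ T (X := X) ρ = Q ∘ₗ P := by
    refine LinearMap.ext fun f => funext fun h => ?_
    rw [LinearMap.comp_apply, LinearMap.comp_apply, Rw_apply]
    change _ = LinearMap.trace ℚ V (ρ h⁻¹ * ∑ k : G, (Rw G ε f k) • ρ k)
    rw [mul_sum, map_sum]
    have h1 : ∀ k : G, LinearMap.trace ℚ V (ρ h⁻¹ * (Rw G ε f k) • ρ k) =
        Rw G ε f k * ch ρ (h⁻¹ * k) := by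
      intro k
      rw [mul_smul_comm, map_smul, smul_eq_mul, ← map_mul]
      rfl
    rw [sum_congr rfl fun k _ => h1 k, ← Equiv.sum_comp (Equiv.mulLeft h)]
    simp only [Equiv.coe_mulLeft, inv_mul_cancel_left, T_apply, sum_mul, Rw_apply]
    rw [sum_comm]
    refine sum_congr rfl fun g _ => ?_
    refine Fintype.sum_equiv (MulAction.toPerm g⁻¹) _ _ fun x => ?_
    rw [MulAction.toPerm_apply, mul_smul, smul_inv_smul]
    ring
  have h1 : W.map (Rw G ε) ≤ LinearMap.range Q := by
    rintro _ ⟨f, hf, rfl⟩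
    obtain ⟨u, rfl⟩ := hW hf
    have h2 := LinearMap.congr_fun hPQ u
    exact ⟨P u, h2.symm⟩
  have h2 := Submodule.finrank_mono h1
  have h3 := LinearMap.finrank_range_le Q
  rw [Module.finrank_linearMap] at h3
  exact h2.trans h3

end

end Pool.Agent.N90.SX
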