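import Mathlib.LinearAlgebra.FiniteDimensional.Lemmas
import Mathlib.RepresentationTheory.Basic
import Mathlib.Analysis.SpecialFunctions.Exp
import Mathlib.Analysis.Complex.ExponentialBounds

/-!
# Few translates of a subspace of an irreducible representation

Let `G` be a finite group and `V` an irreducible representation of `G` over `ℚ`. For subspaces
`U`, `S` of `V` the average dimension of `S ⊓ g U` is at most `dim S * dim U / dim V` (`semi`).
So `V` is the sum of `b` translates of `U ≠ 0` as soon as `b * dim U ≥ dim V * log (dim V)`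
(`exists_base'`).
-/

set_option autoImplicit false
set_option linter.unusedSectionVars false

namespace Pool.Agent.N90.SX

open Module Finset

variable {G V : Type*} [Group G] [Fintype G] [AddCommGroup V] [Module ℚ V] [FiniteDimensional ℚ V]

/-- there are no proper invariant subspaces -/
def Irr (ρ : Representation ℚ G V) : Prop :=
  ∀ S : Submodule ℚ V, (∀ g, S.map (ρ g) ≤ S) → S = ⊥ ∨ S = ⊤

variable (ρ : Representation ℚ G V)

/-- the action of an element as a linear equivalence -/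
noncomputable def eqv (g : G) : V ≃ₗ[ℚ] V :=
  LinearEquiv.ofLinearMap (ρ g) (ρ g⁻¹)
    (by rw [← Module.End.mul_eq_comp, ← map_mul, mul_inv_cancel, map_one]; rfl)
    (by rw [← Module.End.mul_eq_comp, ← map_mul, inv_mul_cancel, map_one]; rfl)

theorem map_map' (g h : G) (S : Submodule ℚ V) : (S.map (ρ h)).map (ρ g) = S.map (ρ (g * h)) := by
  rw [map_mul, ← Submodule.map_comp]
  rfl

theorem finrank_map' (g : G) (S : Submodule ℚ V) : finrank ℚ (S.map (ρ g)) = finrank ℚ S :=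
  LinearEquiv.finrank_map_eq (eqv ρ g) S

theorem map_one' (S : Submodule ℚ V) : S.map (ρ 1) = S := by
  rw [map_one]
  exact Submodule.map_id S

/-- the difference of the two sides -/
noncomputable def phi (U S : Submodule ℚ V) : ℤ :=
  (finrank ℚ V : ℤ) * ∑ g, (finrank ℚ ↥(S ⊓ U.map (ρ g)) : ℤ) -
    Fintype.card G * finrank ℚ U * finrank ℚ S

theorem inf_super (W S₁ S₂ : Submodule ℚ V) :
    finrank ℚ ↥(S₁ ⊓ W) + finrank ℚ ↥(S₂ ⊓ W) ≤
      finrank ℚ ↥((S₁ ⊔ S₂) ⊓ W) + finrank ℚ ↥((S₁ ⊓ S₂) ⊓ W) := by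
  rw [← Submodule.finrank_sup_add_finrank_inf_eq]
  refine add_le_add (Submodule.finrank_mono ?_) (Submodule.finrank_mono ?_)
  · exact sup_le (inf_le_inf_right _ le_sup_left) (inf_le_inf_right _ le_sup_right)
  · exact le_inf (le_inf (inf_le_left.trans inf_le_left) (inf_le_right.trans inf_le_left))
      (inf_le_left.trans inf_le_right)

theorem phi_super (U S₁ S₂ : Submodule ℚ V) :
    phi ρ U S₁ + phi ρ U S₂ ≤ phi ρ U (S₁ ⊔ S₂) + phi ρ U (S₁ ⊓ S₂) := by
  unfold phi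
  have h1 : ∑ g, (finrank ℚ ↥(S₁ ⊓ U.map (ρ g)) : ℤ) + ∑ g, (finrank ℚ ↥(S₂ ⊓ U.map (ρ g)) : ℤ) ≤
      ∑ g, (finrank ℚ ↥((S₁ ⊔ S₂) ⊓ U.map (ρ g)) : ℤ) +
        ∑ g, (finrank ℚ ↥((S₁ ⊓ S₂) ⊓ U.map (ρ g)) : ℤ) := by
    rw [← sum_add_distrib, ← sum_add_distrib]
    refine sum_le_sum fun g _ => ?_
    exact_mod_cast inf_super (U.map (ρ g)) S₁ S₂
  have h2 : (finrank ℚ ↥(S₁ ⊔ S₂) : ℤ) + finrank ℚ ↥(S₁ ⊓ S₂) = finrank ℚ S₁ + finrank ℚ S₂ := by
    exact_mod_cast Submodule.finrank_sup_add_finrank_inf_eq S₁ S₂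
  have h3 : (0 : ℤ) ≤ finrank ℚ V := by positivity
  have h4 := mul_le_mul_of_nonneg_left h1 h3
  have h5 := congrArg (fun z : ℤ => (Fintype.card G : ℤ) * finrank ℚ U * z) h2
  simp only [mul_add] at h4 h5
  linarith

theorem phi_map (U S : Submodule ℚ V) (h : G) : phi ρ U (S.map (ρ h)) = phi ρ U S := by
  unfold phi
  rw [finrank_map']
  congr 2
  rw [← Equiv.sum_comp (Equiv.mulLeft h)]
  refine sum_congr rfl fun g _ => ?_
  have h1 : Function.Injective (ρ h) := (eqv ρ h).injective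
  rw [Equiv.coe_mulLeft, ← map_map', ← Submodule.map_inf _ h1, finrank_map']

/-- **Semistability.** -/
theorem phi_le (hirr : Irr ρ) (U S : Submodule ℚ V) : phi ρ U S ≤ 0 := by
  by_contra hcon
  push Not at hcon
  let κ : ℤ := finrank ℚ V
  let ψ : Submodule ℚ V → ℤ := fun S => (κ + 1) * phi ρ U S + finrank ℚ S
  have hdim : ∀ S : Submodule ℚ V, (finrank ℚ S : ℤ) ≤ κ := fun S => by
    have h := Submodule.finrank_le S
    change (finrank ℚ S : ℤ) ≤ (finrank ℚ V : ℤ)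
    exact_mod_cast h
  have hdim0 : ∀ S : Submodule ℚ V, (0 : ℤ) ≤ finrank ℚ S := fun S => by positivity
  have hκ : 0 ≤ κ := by positivity
  have hbd : ∀ S, ψ S ≤ (κ + 1) * (κ * (Fintype.card G * κ)) + κ := by
    intro S
    have h1 : phi ρ U S ≤ κ * (Fintype.card G * κ) := by
      unfold phi
      have h2 : ∑ g, (finrank ℚ ↥(S ⊓ U.map (ρ g)) : ℤ) ≤ Fintype.card G * κ := by
        refine (sum_le_sum fun g _ => hdim _).trans ?_
        rw [sum_const, nsmul_eq_mul, card_univ]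
      have h3 := mul_le_mul_of_nonneg_left h2 hκ
      have h4 : (0 : ℤ) ≤ Fintype.card G * finrank ℚ U * finrank ℚ S := by positivity
      linarith
    have h2 := mul_le_mul_of_nonneg_left h1 (by linarith : 0 ≤ κ + 1)
    change (κ + 1) * phi ρ U S + finrank ℚ S ≤ _
    linarith [hdim S]
  obtain ⟨M, ⟨S₀, hS₀⟩, hM⟩ := Int.exists_greatest_of_bdd (P := fun z => ∃ S, ψ S = z)
    ⟨_, fun z hz => by obtain ⟨S, rfl⟩ := hz; exact hbd S⟩ ⟨_, S, rfl⟩
  have hmax : ∀ S, ψ S ≤ ψ S₀ := fun S => by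
    rw [hS₀]
    exact hM _ ⟨S, rfl⟩
  have hpos : 1 ≤ phi ρ U S₀ := by
    by_contra h1
    push Not at h1
    have h2 := hmax S
    change (κ + 1) * phi ρ U S + finrank ℚ S ≤ (κ + 1) * phi ρ U S₀ + finrank ℚ S₀ at h2
    nlinarith [hdim S₀, hdim0 S]
  have hinv : ∀ g, S₀.map (ρ g) ≤ S₀ := by
    intro g
    by_contra h1
    have h2 : S₀ < S₀ ⊔ S₀.map (ρ g) := lt_of_le_of_ne le_sup_left fun h => h1 (by
      have h3 : S₀.map (ρ g) ≤ S₀ ⊔ S₀.map (ρ g) := le_sup_right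
      rwa [← h] at h3)
    have h3 : finrank ℚ S₀ < finrank ℚ ↥(S₀ ⊔ S₀.map (ρ g)) := Submodule.finrank_lt_finrank_of_lt h2
    have h4 := phi_super ρ U S₀ (S₀.map (ρ g))
    rw [phi_map] at h4
    have h5 := hmax (S₀ ⊔ S₀.map (ρ g))
    have h6 := hmax (S₀ ⊓ S₀.map (ρ g))
    change (κ + 1) * phi ρ U (S₀ ⊔ S₀.map (ρ g)) + finrank ℚ ↥(S₀ ⊔ S₀.map (ρ g)) ≤
      (κ + 1) * phi ρ U S₀ + finrank ℚ S₀ at h5
    change (κ + 1) * phi ρ U (S₀ ⊓ S₀.map (ρ g)) + finrank ℚ ↥(S₀ ⊓ S₀.map (ρ g)) ≤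
      (κ + 1) * phi ρ U S₀ + finrank ℚ S₀ at h6
    have h7 : (finrank ℚ S₀ : ℤ) < finrank ℚ ↥(S₀ ⊔ S₀.map (ρ g)) := by exact_mod_cast h3
    have h8 : phi ρ U (S₀ ⊔ S₀.map (ρ g)) ≤ phi ρ U S₀ - 1 := by
      by_contra h9
      push Not at h9
      nlinarith
    have h9 : phi ρ U S₀ + 1 ≤ phi ρ U (S₀ ⊓ S₀.map (ρ g)) := by linarith
    nlinarith [hdim S₀, hdim0 (S₀ ⊓ S₀.map (ρ g))]
  rcases hirr S₀ hinv with h1 | h1
  · rw [h1] at hpos
    unfold phi at hpos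
    rw [sum_congr rfl (g := fun _ => (0 : ℤ)) fun g _ => by rw [bot_inf_eq, finrank_bot]; rfl] at hpos
    simp at hpos
  · rw [h1] at hpos
    unfold phi at hpos
    rw [finrank_top] at hpos
    have h2 : ∑ g, (finrank ℚ ↥(⊤ ⊓ U.map (ρ g)) : ℤ) = Fintype.card G * finrank ℚ U := by
      rw [sum_congr rfl (g := fun _ => (finrank ℚ U : ℤ)), sum_const, nsmul_eq_mul, card_univ]
      intro g _
      rw [top_inf_eq, finrank_map']
    rw [h2] at hpos
    linarith [mul_comm (finrank ℚ V : ℤ) (Fintype.card G * finrank ℚ U)]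

/-- a good translate -/
theorem exists_inf_le (hirr : Irr ρ) (U S : Submodule ℚ V) :
    ∃ g, finrank ℚ V * finrank ℚ ↥(S ⊓ U.map (ρ g)) ≤ finrank ℚ U * finrank ℚ S := by
  by_contra hcon
  push Not at hcon
  have h1 := phi_le ρ hirr U S
  unfold phi at h1
  have h2 : ∑ _g : G, ((finrank ℚ U : ℤ) * finrank ℚ S) <
      ∑ g, ((finrank ℚ V : ℤ) * finrank ℚ ↥(S ⊓ U.map (ρ g))) :=
    sum_lt_sum_of_nonempty ⟨1, mem_univ _⟩ fun g _ => by exact_mod_cast hcon g
  rw [sum_const, nsmul_eq_mul, card_univ, ← mul_sum] at h2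
  linarith [mul_assoc (Fintype.card G : ℤ) (finrank ℚ U) (finrank ℚ S)]

theorem exists_base (hirr : Irr ρ) (U : Submodule ℚ V) (b : ℕ) :
    ∃ s : Fin b → G, ((finrank ℚ V : ℤ) - finrank ℚ ↥(⨆ i, U.map (ρ (s i)))) * finrank ℚ V ^ b ≤
      finrank ℚ V * ((finrank ℚ V : ℤ) - finrank ℚ U) ^ b := by
  induction b with
  | zero =>
    refine ⟨Fin.elim0, ?_⟩
    simp
  | succ b ih =>
    obtain ⟨s, hs⟩ := ih
    set S := ⨆ i, U.map (ρ (s i)) with hS
    obtain ⟨g, hg⟩ := exists_inf_le ρ hirr U S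
    refine ⟨Fin.snoc s g, ?_⟩
    have h1 : ⨆ i, U.map (ρ (Fin.snoc (α := fun _ => G) s g i)) = S ⊔ U.map (ρ g) := by
      refine le_antisymm (iSup_le fun i => ?_) (sup_le ?_ ?_)
      · refine Fin.lastCases ?_ (fun i => ?_) i
        · rw [Fin.snoc_last]
          exact le_sup_right
        · rw [Fin.snoc_castSucc]
          exact (le_iSup (fun i => U.map (ρ (s i))) i).trans le_sup_left
      · rw [hS]
        refine iSup_le fun i => ?_
        have h2 := le_iSup (fun i => U.map (ρ (Fin.snoc (α := fun _ => G) s g i))) i.castSucc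
        rwa [Fin.snoc_castSucc] at h2
      · have h2 := le_iSup (fun i => U.map (ρ (Fin.snoc (α := fun _ => G) s g i))) (Fin.last b)
        rwa [Fin.snoc_last] at h2
    rw [h1]
    have h2 : (finrank ℚ ↥(S ⊔ U.map (ρ g)) : ℤ) + finrank ℚ ↥(S ⊓ U.map (ρ g)) =
        finrank ℚ S + finrank ℚ U := by
      have h3 := Submodule.finrank_sup_add_finrank_inf_eq S (U.map (ρ g))
      rw [finrank_map'] at h3
      exact_mod_cast h3
    have h3 : (finrank ℚ V : ℤ) * finrank ℚ ↥(S ⊓ U.map (ρ g)) ≤ finrank ℚ U * finrank ℚ S := by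
      exact_mod_cast hg
    have h4 : (finrank ℚ V : ℤ) - finrank ℚ U ≥ 0 := by
      have := Submodule.finrank_le U
      have h5 : (finrank ℚ U : ℤ) ≤ finrank ℚ V := by exact_mod_cast this
      linarith
    have h5 : ((finrank ℚ V : ℤ) - finrank ℚ ↥(S ⊔ U.map (ρ g))) * finrank ℚ V ≤
        ((finrank ℚ V : ℤ) - finrank ℚ S) * (finrank ℚ V - finrank ℚ U) := by
      have h6 : (finrank ℚ ↥(S ⊔ U.map (ρ g)) : ℤ) =
        finrank ℚ S + finrank ℚ U - finrank ℚ ↥(S ⊓ U.map (ρ g)) := by linarith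
      rw [h6]
      nlinarith
    have h6 : (0 : ℤ) ≤ (finrank ℚ V : ℤ) ^ b := by positivity
    calc ((finrank ℚ V : ℤ) - finrank ℚ ↥(S ⊔ U.map (ρ g))) * finrank ℚ V ^ (b + 1)
        = (((finrank ℚ V : ℤ) - finrank ℚ ↥(S ⊔ U.map (ρ g))) * finrank ℚ V) * finrank ℚ V ^ b := by
          ring
      _ ≤ (((finrank ℚ V : ℤ) - finrank ℚ S) * (finrank ℚ V - finrank ℚ U)) * finrank ℚ V ^ b :=
          mul_le_mul_of_nonneg_right h5 h6
      _ = (((finrank ℚ V : ℤ) - finrank ℚ S) * finrank ℚ V ^ b) * (finrank ℚ V - finrank ℚ U) := by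
          ring
      _ ≤ (finrank ℚ V * ((finrank ℚ V : ℤ) - finrank ℚ U) ^ b) * (finrank ℚ V - finrank ℚ U) :=
          mul_le_mul_of_nonneg_right hs h4
      _ = _ := by ring

theorem numeric {κ m b L : ℕ} (hm : m ≤ κ) (hL : κ < 2 ^ L) (hb : κ * L ≤ b * m) (hm0 : 0 < m) :
    (κ : ℤ) * ((κ : ℤ) - m) ^ b < κ ^ b := by
  have hκ : 0 < κ := lt_of_lt_of_le hm0 hm
  have hκ' : (0 : ℝ) < κ := by exact_mod_cast hκ
  have h1 : (κ : ℝ) * ((κ : ℝ) - m) ^ b < κ ^ b := by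
    have h2 : ((κ : ℝ) - m) = κ * (1 - m / κ) := by
      field_simp
    have h3 : (1 : ℝ) - m / κ ≤ Real.exp (-(m / κ)) := by
      have := Real.add_one_le_exp (-((m : ℝ) / κ))
      linarith
    have h4 : (0 : ℝ) ≤ 1 - m / κ := by
      have h5 : (m : ℝ) ≤ κ := by exact_mod_cast hm
      have h6 : (m : ℝ) / κ ≤ 1 := (div_le_one hκ').2 h5
      linarith
    have h5 : ((1 : ℝ) - m / κ) ^ b ≤ Real.exp (-(L : ℝ)) := by
      calc ((1 : ℝ) - m / κ) ^ b ≤ (Real.exp (-(m / κ))) ^ b := pow_le_pow_left₀ h4 h3 b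
        _ = Real.exp (-(b * m / κ)) := by
          rw [← Real.exp_nat_mul]
          congr 1
          ring
        _ ≤ Real.exp (-(L : ℝ)) := by
          rw [Real.exp_le_exp]
          have h6 : (κ : ℝ) * L ≤ b * m := by exact_mod_cast hb
          have h7 : (L : ℝ) ≤ b * m / κ := by
            rw [le_div_iff₀ hκ']
            linarith
          linarith
    have h6 : (κ : ℝ) * Real.exp (-(L : ℝ)) < 1 := by
      have h7 : (κ : ℝ) < 2 ^ L := by exact_mod_cast hL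
      have h8 : (2 : ℝ) ^ L ≤ Real.exp L := by
        have h9 : (2 : ℝ) ≤ Real.exp 1 := by
          have := Real.exp_one_gt_d9
          linarith
        calc (2 : ℝ) ^ L ≤ (Real.exp 1) ^ L := pow_le_pow_left₀ (by norm_num) h9 L
          _ = Real.exp L := by rw [← Real.exp_nat_mul, mul_one]
      rw [Real.exp_neg]
      have h9 : (0 : ℝ) < Real.exp L := Real.exp_pos _
      rw [← div_eq_mul_inv, div_lt_one h9]
      linarith
    rw [h2, mul_pow]
    have h7 : (0 : ℝ) < (κ : ℝ) ^ b := by positivity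
    calc (κ : ℝ) * (κ ^ b * (1 - m / κ) ^ b) = κ ^ b * (κ * (1 - m / κ) ^ b) := by ring
      _ ≤ κ ^ b * (κ * Real.exp (-(L : ℝ))) := by gcongr
      _ < κ ^ b * 1 := by gcongr
      _ = κ ^ b := mul_one _
  exact_mod_cast h1

/-- **Few translates span.** -/
theorem exists_base' (hirr : Irr ρ) (U : Submodule ℚ V) {b L : ℕ} (hL : finrank ℚ V < 2 ^ L)
    (hb : finrank ℚ V * L ≤ b * finrank ℚ U) (hU : 0 < finrank ℚ U) :
    ∃ s : Fin b → G, ⨆ i, U.map (ρ (s i)) = ⊤ := by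
  obtain ⟨s, hs⟩ := exists_base ρ hirr U b
  refine ⟨s, ?_⟩
  have h1 := numeric (Submodule.finrank_le U) hL hb hU
  have h2 : finrank ℚ ↥(⨆ i, U.map (ρ (s i))) ≤ finrank ℚ V := Submodule.finrank_le _
  apply Submodule.eq_top_of_finrank_eq
  by_contra h3
  have h4 : (1 : ℤ) ≤ (finrank ℚ V : ℤ) - finrank ℚ ↥(⨆ i, U.map (ρ (s i))) := by
    have h5 : finrank ℚ ↥(⨆ i, U.map (ρ (s i))) < finrank ℚ V := lt_of_le_of_ne h2 h3
    have h6 : (finrank ℚ ↥(⨆ i, U.map (ρ (s i))) : ℤ) < finrank ℚ V := by exact_mod_cast h5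
    linarith
  have h5 : (0 : ℤ) ≤ (finrank ℚ V : ℤ) ^ b := by positivity
  nlinarith [mul_le_mul_of_nonneg_right h4 h5]

end Pool.Agent.N90.SX
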